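import Pool.Agent.D0H91.US.App

/-!
# Sharp lower bounds along `⌊α u ^ h⌋` from lower bounds on dyadic windows
-/

set_option autoImplicit false

namespace Pool.Agent.D0H51.SS

open Finset MeasureTheory Filter Topology

/-- partial summation (integrals) against the decreasing weight `u ^ (-s)` -/
theorem bonnet {ε M K s : ℝ} (hε : 0 < ε) (hM : ε ≤ M) (hs : 0 ≤ s) (φ : ℝ → ℝ) (hφm : Measurable φ)
    (hφi : IntervalIntegrable φ volume ε M) (hφc : ∀ x ∈ Set.Ioo ε M, ContinuousWithinAt φ (Set.Ioi x) x)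
    (hK : ∀ v ∈ Set.Icc ε M, -K ≤ ∫ u in ε..v, φ u) :
    -(K * ε ^ (-s)) ≤ ∫ u in ε..M, u ^ (-s) * φ u := by
  have hM0 : 0 < M := hε.trans_le hM
  have hmm : min ε M = ε := min_eq_left hM
  have hmx : max ε M = M := max_eq_right hM
  have huI : Set.uIcc ε M = Set.Icc ε M := Set.uIcc_of_le hM
  have hcu : ContinuousOn (fun u : ℝ => u ^ (-s)) (Set.uIcc ε M) := by
    rw [huI]
    intro x hx
    exact (Real.continuousAt_rpow_const x (-s) (Or.inl (hε.trans_le hx.1).ne')).continuousWithinAt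
  have hcA : ContinuousOn (fun v : ℝ => ∫ u in ε..v, φ u) (Set.uIcc ε M) :=
    intervalIntegral.continuousOn_primitive_interval' hφi Set.left_mem_uIcc
  have hcd : ContinuousOn (fun u : ℝ => -s * u ^ (-s - 1)) (Set.uIcc ε M) := by
    rw [huI]
    intro x hx
    exact ((Real.continuousAt_rpow_const x (-s - 1) (Or.inl (hε.trans_le hx.1).ne')).const_mul
      (-s)).continuousWithinAt
  have hparts := intervalIntegral.integral_mul_deriv_eq_deriv_mul_of_hasDeriv_right
    (a := ε) (b := M) (u := fun u : ℝ => u ^ (-s)) (v := fun v : ℝ => ∫ u in ε..v, φ u)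
    (u' := fun u : ℝ => -s * u ^ (-s - 1)) (v' := φ) hcu hcA
    (by
      rw [hmm, hmx]
      intro x hx
      exact (Real.hasDerivAt_rpow_const (Or.inl (hε.trans hx.1).ne')).hasDerivWithinAt)
    (by
      rw [hmm, hmx]
      intro x hx
      have h1 : IntervalIntegrable φ volume ε x := by
        refine hφi.mono_set ?_
        rw [Set.uIcc_of_le hx.1.le, huI]
        exact Set.Icc_subset_Icc_right hx.2.le
      have h2 : HasDerivWithinAt (fun v : ℝ => ∫ u in ε..v, φ u) (φ x) (Set.Ici x) x :=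
        intervalIntegral.integral_hasDerivWithinAt_right h1 (t := Set.Ioi x)
          (hφm.stronglyMeasurable.stronglyMeasurableAtFilter) (hφc x hx)
      exact h2.mono Set.Ioi_subset_Ici_self)
    (hcd.intervalIntegrable) hφi
  rw [hparts]
  simp only [intervalIntegral.integral_same, mul_zero, sub_zero]
  have h3 : ∫ x in ε..M, -s * x ^ (-s - 1) * ∫ u in ε..x, φ u ≤ ∫ x in ε..M, K * (s * x ^ (-s - 1)) := by
    refine intervalIntegral.integral_mono_on hM ?_ ?_ ?_
    · exact (hcd.mul hcA).intervalIntegrable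
    · refine ContinuousOn.intervalIntegrable ?_
      have := hcd.const_mul (-K)
      refine this.congr fun x _ => ?_
      ring
    · intro x hx
      have hx0 : 0 < x := hε.trans_le hx.1
      have h4 := hK x hx
      have h5 : 0 ≤ s * x ^ (-s - 1) := by positivity
      nlinarith
  have h4 : ∫ x in ε..M, K * (s * x ^ (-s - 1)) = K * (ε ^ (-s) - M ^ (-s)) := by
    rw [intervalIntegral.integral_const_mul]
    congr 1
    have h5 : ∀ x ∈ Set.uIcc ε M, HasDerivAt (fun u : ℝ => -(u ^ (-s))) (s * x ^ (-s - 1)) x := by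
      rw [huI]
      intro x hx
      have h6 := (Real.hasDerivAt_rpow_const (x := x) (p := -s) (Or.inl (hε.trans_le hx.1).ne')).fun_neg
      refine h6.congr_deriv ?_
      ring
    rw [intervalIntegral.integral_eq_sub_of_hasDerivAt h5 ?_]
    · ring
    · refine ContinuousOn.intervalIntegrable ?_
      refine (hcd.const_mul (-1)).congr fun x _ => ?_
      simp only
      ring
  have h5 := hK M ⟨hM, le_rfl⟩
  have h6 : 0 < M ^ (-s) := Real.rpow_pos_of_pos hM0 _
  nlinarith

/-- the substitution `x = α u ^ k` for a bounded measurable function -/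
theorem subst_pow {k α B ε v : ℝ} (hk : 1 ≤ k) (hα : 0 < α) (hε : 0 < ε) (hv : ε ≤ v) (g : ℝ → ℝ) :
    ∫ x in (α * ε ^ k)..(α * v ^ k), g x = ∫ u in ε..v, (α * k) * (u ^ (k - 1) * g (α * u ^ k)) := by
  have hk0 : 0 < k := by linarith
  have hv0 : 0 < v := hε.trans_le hv
  have hle : α * ε ^ k ≤ α * v ^ k := mul_le_mul_of_nonneg_left (Real.rpow_le_rpow hε.le hv hk0.le) hα.le
  rw [intervalIntegral.integral_of_le hle, intervalIntegral.integral_of_le hv]
  have himg : (fun u : ℝ => α * u ^ k) '' Set.Ioc ε v = Set.Ioc (α * ε ^ k) (α * v ^ k) := by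
    ext x
    constructor
    · rintro ⟨u, hu, rfl⟩
      have hu0 : 0 < u := hε.trans hu.1
      exact ⟨mul_lt_mul_of_pos_left (Real.rpow_lt_rpow hε.le hu.1 hk0) hα,
        mul_le_mul_of_nonneg_left (Real.rpow_le_rpow hu0.le hu.2 hk0.le) hα.le⟩
    · rintro ⟨h1, h2⟩
      have hx0 : 0 < x := lt_of_le_of_lt (by positivity) h1
      refine ⟨(x / α) ^ k⁻¹, ⟨?_, ?_⟩, ?_⟩
      · rw [Real.lt_rpow_inv_iff_of_pos hε.le (by positivity) hk0, lt_div_iff₀ hα]
        linarith
      · rw [Real.rpow_inv_le_iff_of_pos (by positivity) hv0.le hk0, div_le_iff₀ hα]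
        linarith
      · simp only
        rw [← Real.rpow_mul (by positivity), inv_mul_cancel₀ hk0.ne', Real.rpow_one]
        field_simp
  have hinj : Set.InjOn (fun u : ℝ => α * u ^ k) (Set.Ioc ε v) := by
    intro u hu w hw huv
    simp only at huv
    have h1 := mul_left_cancel₀ hα.ne' huv
    exact (Real.rpow_left_inj (hε.trans hu.1).le (hε.trans hw.1).le hk0.ne').1 h1
  have hder : ∀ u ∈ Set.Ioc ε v, HasDerivWithinAt (fun u : ℝ => α * u ^ k) (α * (k * u ^ (k - 1)))
      (Set.Ioc ε v) u := by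
    intro u hu
    apply HasDerivAt.hasDerivWithinAt
    exact (Real.hasDerivAt_rpow_const (Or.inl (hε.trans hu.1).ne')).const_mul α
  have hcv := integral_image_eq_integral_abs_deriv_smul measurableSet_Ioc hder hinj g
  rw [himg] at hcv
  rw [hcv]
  refine setIntegral_congr_fun measurableSet_Ioc fun u hu => ?_
  have hu0 : 0 < u := hε.trans hu.1
  simp only [smul_eq_mul]
  rw [abs_of_pos (by positivity)]
  ring

/-- **Sharp lower bound.** -/
theorem int_sharp {k α B L D ε M : ℝ} (hk : 1 ≤ k) (hα : 0 < α) (hε : 0 < ε) (hM : ε ≤ M) (g : ℝ → ℝ)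
    (hgm : Measurable g) (hg0 : ∀ x, 0 ≤ g x) (hgB : ∀ x, g x ≤ B)
    (hgc : ∀ x, 0 < x → ContinuousWithinAt g (Set.Ioi x) x)
    (hD : ∀ y, α * ε ^ k ≤ y → y ≤ α * M ^ k → L * (y - D) ≤ ∫ x in (α * ε ^ k)..y, g x) :
    L * (M - ε) - L * (D - α * ε ^ k) / (α * k) * ε ^ (-(k - 1)) ≤ ∫ u in (0 : ℝ)..M, g (α * u ^ k) := by
  have hk0 : 0 < k := by linarith
  have hM0 : 0 < M := hε.trans_le hM
  have hB0 : 0 ≤ B := (hg0 0).trans (hgB 0)
  have hgi : ∀ a b : ℝ, IntervalIntegrable (fun u : ℝ => g (α * u ^ k)) volume a b := by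
    intro a b
    rw [intervalIntegrable_iff]
    refine Measure.integrableOn_of_bounded (M := B) (by simp) (hgm.comp (by fun_prop)).aestronglyMeasurable
      (Filter.Eventually.of_forall fun u => ?_)
    rw [Real.norm_eq_abs, abs_of_nonneg (hg0 _)]
    exact hgB _
  obtain ⟨φ, hφ⟩ : ∃ φ : ℝ → ℝ, φ = fun u => u ^ (k - 1) * (g (α * u ^ k) - L) := ⟨_, rfl⟩
  have hφm : Measurable φ := by
    rw [hφ]
    exact Measurable.mul (by fun_prop) ((hgm.comp (by fun_prop)).sub_const L)
  have hpc : ∀ a b : ℝ, 0 < a → a ≤ b → ContinuousOn (fun u : ℝ => u ^ (k - 1)) (Set.uIcc a b) := by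
    intro a b ha hab
    rw [Set.uIcc_of_le hab]
    intro x hx
    exact (Real.continuousAt_rpow_const x (k - 1) (Or.inl (ha.trans_le hx.1).ne')).continuousWithinAt
  have hφi' : ∀ v, ε ≤ v → IntervalIntegrable φ volume ε v := by
    intro v hv
    rw [hφ]
    exact ((hgi ε v).sub (by simp)).continuousOn_mul (hpc ε v hε hv)
  have hφc : ∀ x ∈ Set.Ioo ε M, ContinuousWithinAt φ (Set.Ioi x) x := by
    intro x hx
    have hx0 : 0 < x := hε.trans hx.1
    rw [hφ]
    refine ContinuousWithinAt.mul ?_ (ContinuousWithinAt.sub ?_ continuousWithinAt_const)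
    · exact (Real.continuousAt_rpow_const x (k - 1) (Or.inl hx0.ne')).continuousWithinAt
    · have h1 : ContinuousWithinAt (fun u : ℝ => α * u ^ k) (Set.Ioi x) x :=
        ((Real.continuousAt_rpow_const x k (Or.inl hx0.ne')).const_mul α).continuousWithinAt
      refine ContinuousWithinAt.comp (t := Set.Ioi (α * x ^ k)) (hgc _ (by positivity)) h1 ?_
      intro u hu
      exact mul_lt_mul_of_pos_left (Real.rpow_lt_rpow hx0.le hu hk0) hα
  have hK : ∀ v ∈ Set.Icc ε M, -(L * (D - α * ε ^ k) / (α * k)) ≤ ∫ u in ε..v, φ u := by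
    intro v hv
    have hv0 : 0 < v := hε.trans_le hv.1
    have h1 := hD (α * v ^ k) (mul_le_mul_of_nonneg_left (Real.rpow_le_rpow hε.le hv.1 hk0.le) hα.le)
      (mul_le_mul_of_nonneg_left (Real.rpow_le_rpow hv0.le hv.2 hk0.le) hα.le)
    rw [subst_pow (B := B) hk hα hε hv.1 g, intervalIntegral.integral_const_mul] at h1
    have h2 : ∫ u in ε..v, φ u = (∫ u in ε..v, u ^ (k - 1) * g (α * u ^ k)) - L * ((v ^ k - ε ^ k) / k) := by
      have e1 : ∫ u in ε..v, φ u = ∫ u in ε..v, (u ^ (k - 1) * g (α * u ^ k) - L * u ^ (k - 1)) := by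
        rw [hφ]
        refine intervalIntegral.integral_congr fun u _ => ?_
        ring
      rw [e1, intervalIntegral.integral_sub ((hgi ε v).continuousOn_mul (hpc ε v hε hv.1))
        ((hpc ε v hε hv.1).intervalIntegrable.const_mul L), intervalIntegral.integral_const_mul]
      congr 2
      rw [integral_rpow (Or.inl (by linarith)), sub_add_cancel]
    rw [h2]
    have h3 : 0 < α * k := by positivity
    rw [neg_le_sub_iff_le_add, ← sub_nonneg]
    have h4 : 0 ≤ (α * k * (∫ u in ε..v, u ^ (k - 1) * g (α * u ^ k)) - L * (α * v ^ k - D)) / (α * k) :=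
      div_nonneg (by linarith) h3.le
    convert h4 using 1
    field_simp
    ring
  have h1 := bonnet hε hM (show 0 ≤ k - 1 by linarith) φ hφm (hφi' M hM) hφc hK
  have h2 : ∫ u in ε..M, u ^ (-(k - 1)) * φ u = (∫ u in ε..M, g (α * u ^ k)) - L * (M - ε) := by
    have e1 : ∫ u in ε..M, u ^ (-(k - 1)) * φ u = ∫ u in ε..M, (g (α * u ^ k) - L) := by
      refine intervalIntegral.integral_congr fun u hu => ?_
      rw [Set.uIcc_of_le hM] at hu
      have hu0 : 0 < u := hε.trans_le hu.1
      simp only [hφ]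
      rw [← mul_assoc, ← Real.rpow_add hu0, neg_add_cancel, Real.rpow_zero, one_mul]
    rw [e1, intervalIntegral.integral_sub (hgi ε M) (by simp), intervalIntegral.integral_const, smul_eq_mul]
    ring
  have h3 : ∫ u in ε..M, g (α * u ^ k) ≤ ∫ u in (0 : ℝ)..M, g (α * u ^ k) :=
    intervalIntegral.integral_mono_interval hε.le hM le_rfl (Filter.Eventually.of_forall fun u => hg0 _) (hgi _ _)
  rw [h2] at h1
  linarith

end Pool.Agent.D0H51.SS
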