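import Pool.Agent.D0H51.SS.Bon

/-!
# Sharp lower bounds along `⌊α u ^ h⌋` from lower bounds on dyadic windows (2)
-/

set_option autoImplicit false

namespace Pool.Agent.D0H51.SS

open Finset MeasureTheory Filter Topology

/-- from dyadic windows to all intervals from `n₀` -/
theorem cumulative (f : ℕ → ℝ) (hf : ∀ q, 0 ≤ f q) (L : ℝ) (hL : 0 ≤ L) (n₀ X : ℕ)
    (hwin : ∀ t : ℕ, n₀ ≤ t → 2 * t ≤ X → L * t ≤ ∑ q ∈ Ico t (2 * t), f q) :
    ∀ n : ℕ, n₀ ≤ n → n ≤ X → L * (n - (2 * n₀ + 1) - Nat.log 2 n) ≤ ∑ q ∈ Ico n₀ n, f q := by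
  intro n
  induction n using Nat.strong_induction_on with
  | _ n ih =>
    intro hn0 hnX
    by_cases hsmall : n < 2 * n₀ + 2
    · have h1 : (n : ℝ) ≤ 2 * n₀ + 1 := by exact_mod_cast (by omega : n ≤ 2 * n₀ + 1)
      have h2 : (0 : ℝ) ≤ (Nat.log 2 n : ℝ) := Nat.cast_nonneg _
      have h3 : 0 ≤ ∑ q ∈ Ico n₀ n, f q := Finset.sum_nonneg fun q _ => hf q
      have h4 : L * (n - (2 * n₀ + 1) - Nat.log 2 n) ≤ 0 :=
        mul_nonpos_of_nonneg_of_nonpos hL (by linarith)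
      linarith
    · have ht : n / 2 < n := by omega
      have ht0 : n₀ ≤ n / 2 := by omega
      have h1 := ih (n / 2) ht ht0 (by omega)
      have h2 := hwin (n / 2) ht0 (by omega)
      have h3 : Nat.log 2 n = Nat.log 2 (n / 2) + 1 := by
        rw [Nat.log_div_base]
        have : 1 ≤ Nat.log 2 n := Nat.log_pos (by norm_num) (by omega)
        omega
      have h4 : ∑ q ∈ Ico n₀ (n / 2), f q + ∑ q ∈ Ico (n / 2) (2 * (n / 2)), f q ≤ ∑ q ∈ Ico n₀ n, f q := by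
        rw [Finset.sum_Ico_consecutive _ ht0 (by omega)]
        refine Finset.sum_le_sum_of_subset_of_nonneg ?_ fun q _ _ => hf q
        intro q hq
        rw [Finset.mem_Ico] at hq ⊢
        omega
      have h5 : (n : ℝ) ≤ 2 * ((n / 2 : ℕ) : ℝ) + 1 := by exact_mod_cast (by omega : n ≤ 2 * (n / 2) + 1)
      rw [h3]
      push_cast
      have h6 : L * (n - (2 * n₀ + 1) - ((Nat.log 2 (n / 2) : ℝ) + 1)) ≤
          L * (((n / 2 : ℕ) : ℝ) - (2 * n₀ + 1) - Nat.log 2 (n / 2)) + L * ((n / 2 : ℕ) : ℝ) := by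
        rw [← mul_add]
        exact mul_le_mul_of_nonneg_left (by linarith) hL
      linarith

theorem floor_meas (f : ℕ → ℝ) : Measurable fun x : ℝ => f ⌊x⌋₊ :=
  (measurable_from_nat (f := f)).comp Nat.measurable_floor

theorem floor_ii (f : ℕ → ℝ) (hf : ∀ q, 0 ≤ f q) {B : ℝ} (hB : ∀ q, f q ≤ B) (a b : ℝ) :
    IntervalIntegrable (fun x : ℝ => f ⌊x⌋₊) volume a b := by
  rw [intervalIntegrable_iff]
  refine Measure.integrableOn_of_bounded (M := B) (by simp) (floor_meas f).aestronglyMeasurable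
    (Filter.Eventually.of_forall fun u => ?_)
  rw [Real.norm_eq_abs, abs_of_nonneg (hf _)]
  exact hB _

theorem floor_int (f : ℕ → ℝ) (hf : ∀ q, 0 ≤ f q) {B : ℝ} (hB : ∀ q, f q ≤ B) (a b : ℕ) (hab : a ≤ b) :
    ∫ x in (a : ℝ)..b, f ⌊x⌋₊ = ∑ q ∈ Ico a b, f q := by
  rw [← intervalIntegral.sum_integral_adjacent_intervals_Ico (a := fun q : ℕ => (q : ℝ)) hab
    (fun k _ => floor_ii f hf hB _ _)]
  refine Finset.sum_congr rfl fun q _ => ?_
  push_cast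
  rw [intervalIntegral.integral_of_le (by linarith), integral_Ioc_eq_integral_Ioo]
  have h1 : ∫ x in Set.Ioo (q : ℝ) (q + 1), f ⌊x⌋₊ = ∫ x in Set.Ioo (q : ℝ) (q + 1), f q := by
    refine setIntegral_congr_fun measurableSet_Ioo fun x hx => ?_
    have h2 : ⌊x⌋₊ = q := (Nat.floor_eq_iff ((Nat.cast_nonneg q).trans hx.1.le)).2 ⟨hx.1.le, hx.2⟩
    simp only [h2]
  rw [h1]
  simp

/-- **Sharp lower bound from dyadic windows.** -/
theorem sharp_of_windows {k α : ℝ} (hk : 1 ≤ k) (hα : 0 < α) (δ : ℝ) (hδ : 0 < δ) (hδ1 : δ ≤ 1 / 4) :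
    ∀ᶠ M : ℕ in atTop, ∀ (f : ℕ → ℝ) (B L : ℝ), (∀ q, 0 ≤ f q) → (∀ q, f q ≤ B) → 0 ≤ L →
      (∀ t : ℕ, α * (δ * M) ^ k ≤ t → 2 * t ≤ α * (M : ℝ) ^ k → L * t ≤ ∑ q ∈ Ico t (2 * t), f q) →
        L * M * (1 - 6 * δ) ≤ ∫ u in (0 : ℝ)..M, f ⌊α * u ^ k⌋₊ := by
  have hk0 : 0 < k := by linarith
  have hdt : Tendsto (fun M : ℕ => α * (δ * M) ^ k) atTop atTop :=
    ((tendsto_rpow_atTop hk0).comp (tendsto_natCast_atTop_atTop.const_mul_atTop hδ)).const_mul_atTop hα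
  -- the logarithm is small
  have hlog : ∀ᶠ M : ℕ in atTop, (2 : ℝ) + Nat.log 2 ⌊α * (M : ℝ) ^ k⌋₊ ≤ α * (δ * M) ^ k := by
    have h1 : ∀ᶠ x : ℝ in atTop, (2 : ℝ) + 1 / Real.log 2 * Real.log x ≤ δ ^ k * x := by
      have h2 := (Real.isLittleO_log_id_atTop.bound (show (0 : ℝ) < δ ^ k * Real.log 2 / 2 by
        have := Real.log_pos (show (1 : ℝ) < 2 by norm_num)
        positivity))
      filter_upwards [h2, eventually_ge_atTop (4 / δ ^ k), eventually_ge_atTop 1] with x hx h3 h4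
      have hl2 := Real.log_pos (show (1 : ℝ) < 2 by norm_num)
      have hlx := Real.log_nonneg h4
      simp only [id] at hx
      rw [Real.norm_of_nonneg hlx, Real.norm_of_nonneg (by linarith)] at hx
      have hd : 0 < δ ^ k := by positivity
      rw [div_le_iff₀ hd] at h3
      have h5 : 1 / Real.log 2 * Real.log x ≤ δ ^ k * x / 2 := by
        rw [div_mul_eq_mul_div, one_mul, div_le_iff₀ hl2]
        linarith
      linarith
    have hXt : Tendsto (fun M : ℕ => α * (M : ℝ) ^ k) atTop atTop :=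
      ((tendsto_rpow_atTop hk0).comp tendsto_natCast_atTop_atTop).const_mul_atTop hα
    filter_upwards [hXt.eventually h1, hXt.eventually_ge_atTop 1, eventually_ge_atTop 1] with M hM hM1 hM0
    have hMr : (0 : ℝ) < M := by exact_mod_cast hM0
    have hfl : 1 ≤ ⌊α * (M : ℝ) ^ k⌋₊ := (Nat.one_le_floor_iff _).2 hM1
    have h2 : (Nat.log 2 ⌊α * (M : ℝ) ^ k⌋₊ : ℝ) ≤ 1 / Real.log 2 * Real.log (α * (M : ℝ) ^ k) := by
      have h3 : (Nat.log 2 ⌊α * (M : ℝ) ^ k⌋₊ : ℝ) ≤ Real.logb 2 ⌊α * (M : ℝ) ^ k⌋₊ := by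
        have := Real.natLog_le_logb ⌊α * (M : ℝ) ^ k⌋₊ 2
        exact_mod_cast this
      refine h3.trans ?_
      rw [Real.logb, div_eq_mul_one_div, mul_comm]
      have hl2 := Real.log_pos (show (1 : ℝ) < 2 by norm_num)
      refine mul_le_mul_of_nonneg_left (Real.log_le_log (by exact_mod_cast hfl) (Nat.floor_le (by linarith))) (by positivity)
    have h3 : δ ^ k * (α * (M : ℝ) ^ k) = α * (δ * M) ^ k := by
      rw [Real.mul_rpow hδ.le hMr.le]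
      ring
    linarith
  filter_upwards [hlog, hdt.eventually_ge_atTop 1, eventually_ge_atTop 1] with M hM hM2 hM1 f B L hf hB hL hwin
  have hMr : (0 : ℝ) < M := by exact_mod_cast hM1
  obtain ⟨n₀, hn₀⟩ : ∃ n₀ : ℕ, n₀ = ⌈α * (δ * M) ^ k⌉₊ := ⟨_, rfl⟩
  have hn1 : α * (δ * M) ^ k ≤ n₀ := by rw [hn₀]; exact Nat.le_ceil _
  have hn2 : (n₀ : ℝ) ≤ 2 * (α * (δ * M) ^ k) := by
    rw [hn₀]
    have := Nat.ceil_lt_add_one (show 0 ≤ α * (δ * M) ^ k by linarith)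
    linarith
  have hn0 : (0 : ℝ) < n₀ := by linarith
  obtain ⟨ε, hε⟩ : ∃ ε : ℝ, ε = ((n₀ : ℝ) / α) ^ k⁻¹ := ⟨_, rfl⟩
  have hε0 : 0 < ε := by rw [hε]; positivity
  have hεk : α * ε ^ k = n₀ := by
    rw [hε, ← Real.rpow_mul (by positivity), inv_mul_cancel₀ hk0.ne', Real.rpow_one]
    field_simp
  have hε2 : ε ≤ 2 * (δ * M) := by
    rw [hε, Real.rpow_inv_le_iff_of_pos (by positivity) (by positivity) hk0, div_le_iff₀ hα,
      Real.mul_rpow (by norm_num) (by positivity)]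
    have h1 : (2 : ℝ) ^ (1 : ℝ) ≤ (2 : ℝ) ^ k := Real.rpow_le_rpow_of_exponent_le (by norm_num) hk
    rw [Real.rpow_one] at h1
    have h2 : 0 ≤ (δ * (M : ℝ)) ^ k := by positivity
    have h3 : 2 * (α * (δ * M) ^ k) ≤ 2 ^ k * (α * (δ * M) ^ k) :=
      mul_le_mul_of_nonneg_right h1 (by positivity)
    linarith
  have hεM : ε ≤ M := by nlinarith
  have hcum := cumulative f hf L hL n₀ ⌊α * (M : ℝ) ^ k⌋₊ (by
    intro t ht htX
    refine hwin t (hn1.trans (by exact_mod_cast ht)) ?_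
    have : ((2 * t : ℕ) : ℝ) ≤ α * (M : ℝ) ^ k := (Nat.le_floor_iff (by positivity)).1 htX
    push_cast at this
    exact this)
  have hsharp := int_sharp (k := k) (α := α) (B := B) (L := L)
    (D := 2 * n₀ + 2 + Nat.log 2 ⌊α * (M : ℝ) ^ k⌋₊) (ε := ε) (M := M) hk hα hε0 hεM (fun x : ℝ => f ⌊x⌋₊)
    (floor_meas f) (fun x => hf _) (fun x => hB _) (by
      intro x hx
      have h1 : (fun y : ℝ => f ⌊y⌋₊) =ᶠ[𝓝[>] x] fun _ => f ⌊x⌋₊ := by
        filter_upwards [Ioo_mem_nhdsGT (show x < ⌊x⌋₊ + 1 from Nat.lt_floor_add_one x)] with y hy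
        have h2 : ⌊y⌋₊ = ⌊x⌋₊ := (Nat.floor_eq_iff (hx.le.trans hy.1.le)).2
          ⟨(Nat.floor_le hx.le).trans hy.1.le, hy.2⟩
        rw [h2]
      exact (tendsto_const_nhds (x := f ⌊x⌋₊)).congr' h1.symm) (by
      intro y hy1 hy2
      rw [hεk] at hy1 ⊢
      have hy0 : 0 ≤ y := by linarith
      have hfy : n₀ ≤ ⌊y⌋₊ := Nat.le_floor hy1
      have hfy2 : ⌊y⌋₊ ≤ ⌊α * (M : ℝ) ^ k⌋₊ := Nat.floor_le_floor hy2
      have h1 := hcum ⌊y⌋₊ hfy hfy2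
      rw [← floor_int f hf hB n₀ ⌊y⌋₊ hfy] at h1
      have h2 : ∫ x in (n₀ : ℝ)..⌊y⌋₊, f ⌊x⌋₊ ≤ ∫ x in (n₀ : ℝ)..y, f ⌊x⌋₊ :=
        intervalIntegral.integral_mono_interval le_rfl (by exact_mod_cast hfy) (Nat.floor_le hy0)
          (Filter.Eventually.of_forall fun x => hf _) (floor_ii f hf hB _ _)
      have h3 : (Nat.log 2 ⌊y⌋₊ : ℝ) ≤ Nat.log 2 ⌊α * (M : ℝ) ^ k⌋₊ := by
        exact_mod_cast Nat.log_mono_right hfy2
      have h4 := Nat.lt_floor_add_one y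
      have h5 : L * (y - (2 * n₀ + 2 + Nat.log 2 ⌊α * (M : ℝ) ^ k⌋₊)) ≤
          L * (⌊y⌋₊ - (2 * n₀ + 1) - Nat.log 2 ⌊y⌋₊) := mul_le_mul_of_nonneg_left (by linarith) hL
      linarith)
  refine le_trans ?_ hsharp
  rw [hεk]
  have h1 : L * (2 * n₀ + 2 + Nat.log 2 ⌊α * (M : ℝ) ^ k⌋₊ - n₀) / (α * k) * ε ^ (-(k - 1)) ≤ L * (2 * ε) := by
    have h2 : L * (2 * n₀ + 2 + Nat.log 2 ⌊α * (M : ℝ) ^ k⌋₊ - n₀) ≤ L * (2 * n₀) :=
      mul_le_mul_of_nonneg_left (by linarith) hL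
    have h3 : 0 < ε ^ (-(k - 1)) := Real.rpow_pos_of_pos hε0 _
    calc L * (2 * n₀ + 2 + Nat.log 2 ⌊α * (M : ℝ) ^ k⌋₊ - n₀) / (α * k) * ε ^ (-(k - 1)) ≤
          L * (2 * n₀) / (α * k) * ε ^ (-(k - 1)) := by gcongr
      _ = L * (2 * (ε ^ k * ε ^ (-(k - 1)))) / k := by
          rw [← hεk]
          field_simp
      _ = L * (2 * ε) / k := by
          rw [← Real.rpow_add hε0, show k + -(k - 1) = 1 by ring, Real.rpow_one]
      _ ≤ L * (2 * ε) := div_le_self (by positivity) hk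
  have h2 : L * (6 * (δ * M)) ≥ L * (3 * ε) := mul_le_mul_of_nonneg_left (by linarith) hL
  nlinarith

end Pool.Agent.D0H51.SS
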