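import Pool.Agent.D0H51.SS.Bon2

/-!
# Codes of finite sets, transfer with integrals
-/

set_option autoImplicit false

namespace Pool.Agent.D0H51.SS

open Finset MeasureTheory Filter Topology
open Pool.Agent.D0H91.US

/-- the set of the `n` components of `j` under iterated unpairing -/
def dec : ℕ → ℕ → Finset ℕ
  | 0, _ => ∅
  | n + 1, j => insert (Nat.unpair j).1 (dec n (Nat.unpair j).2)

theorem exists_code (R : ℕ) : ∀ (n : ℕ) (T : Finset ℕ), T.card = n → (∀ r ∈ T, r ≤ R) →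
    ∃ j : ℕ, dec n j = T ∧ j ≤ (R + 2) ^ (4 ^ n) := by
  intro n
  induction n with
  | zero =>
    intro T hT _
    exact ⟨0, (Finset.card_eq_zero.1 hT).symm, Nat.zero_le _⟩
  | succ n ih =>
    intro T hT hR
    obtain ⟨a, ha⟩ : T.Nonempty := Finset.card_pos.1 (by omega)
    obtain ⟨j', hj', hjb⟩ := ih (T.erase a) (by rw [Finset.card_erase_of_mem ha]; omega)
      (fun r hr => hR r (Finset.mem_of_mem_erase hr))
    refine ⟨Nat.pair a j', ?_, ?_⟩
    · simp only [dec, Nat.unpair_pair]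
      rw [hj', Finset.insert_erase ha]
    · have h1 := Nat.pair_lt_max_add_one_sq a j'
      obtain ⟨x, hx⟩ : ∃ x : ℕ, x = (R + 2) ^ (4 ^ n) := ⟨_, rfl⟩
      have h0 : R + 2 ≤ x := by
        rw [hx]
        exact Nat.le_self_pow (by positivity) _
      have h2 : max a j' ≤ x := by
        have := hR a ha
        rw [← hx] at hjb
        exact max_le (by omega) hjb
      have h3 : (R + 2) ^ (4 ^ (n + 1)) = x ^ 4 := by
        rw [hx, ← pow_mul, pow_succ]
      rw [h3]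
      have h4 : (max a j' + 1) ^ 2 ≤ (x + 1) ^ 2 := Nat.pow_le_pow_left (by omega) 2
      have h5 : x + 1 ≤ x ^ 2 := by nlinarith
      have h6 : (x + 1) ^ 2 ≤ x ^ 4 := by
        calc (x + 1) ^ 2 ≤ (x ^ 2) ^ 2 := Nat.pow_le_pow_left h5 2
          _ = x ^ 4 := by ring
      omega

open Classical in
/-- transfer with the integral -/
theorem transfer_int (h : ℝ) (hh : 0 < h) : ∃ c : ℝ, 0 < c ∧ c < 1 ∧ ∀ E : ℕ → Set ℕ, ∀ᵐ α : ℝ, 0 < α →
    ∀ᶠ N : ℕ in atTop, ∀ j : ℕ, (j : ℝ) ≤ (N : ℝ) ^ c →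
      (∫ u in (0 : ℝ)..N, (if ⌊α * u ^ h⌋₊ ∈ E j then (1 : ℝ) else 0)) - (N : ℝ) ^ (1 - c) ≤
        (((Icc 1 N).filter (fun n : ℕ => ⌊α * (n : ℝ) ^ h⌋₊ ∈ E j)).card : ℝ) := by
  obtain ⟨c, hc0, hc1, hus⟩ := us_ae h hh
  refine ⟨c, hc0, by linarith, fun E => ?_⟩
  have h1 := hus c hc0.le le_rfl (fun j m => if m ∈ E j then 1 else 0) (by
    filter_upwards [eventually_ge_atTop 1] with N hN j _ m _
    have hN1 : (1 : ℝ) ≤ N := by exact_mod_cast hN
    refine le_trans ?_ (Real.one_le_rpow hN1 hc0.le)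
    split_ifs <;> simp)
  filter_upwards [h1] with α hα hα0
  filter_upwards [hα hα0, eventually_ge_atTop 1] with N hN hN1 j hj
  have h2 := hN j hj
  have e1 : ∑ n ∈ Icc 1 N, (if ⌊α * (n : ℝ) ^ h⌋₊ ∈ E j then (1 : ℂ) else 0) =
      ((((Icc 1 N).filter (fun n : ℕ => ⌊α * (n : ℝ) ^ h⌋₊ ∈ E j)).card : ℝ) : ℂ) := by
    rw [Finset.card_filter]
    push_cast
    refine Finset.sum_congr rfl fun n _ => ?_
    split_ifs <;> simp
  have e2 : ∫ u in (0 : ℝ)..N, (if ⌊α * u ^ h⌋₊ ∈ E j then (1 : ℂ) else 0) =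
      ((∫ u in (0 : ℝ)..N, (if ⌊α * u ^ h⌋₊ ∈ E j then (1 : ℝ) else 0) : ℝ) : ℂ) := by
    rw [← intervalIntegral.integral_ofReal]
    refine intervalIntegral.integral_congr fun u _ => ?_
    split_ifs <;> simp
  rw [e1, e2, ← Complex.ofReal_sub, Complex.norm_real, Real.norm_eq_abs, abs_le] at h2
  linarith [h2.1]

/-- logarithms: a polylogarithmic code bound -/
theorem ev_code (C : ℝ) (hC : 0 ≤ C) (K : ℕ) (c : ℝ) (hc : 0 < c) : ∀ᶠ M : ℕ in atTop,
    (Real.log M ^ C + 2) ^ K ≤ (M : ℝ) ^ c := by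
  have hlogt : Tendsto (fun N : ℕ => Real.log (N : ℝ)) atTop atTop :=
    Real.tendsto_log_atTop.comp tendsto_natCast_atTop_atTop
  have h1 := (isLittleO_log_rpow_rpow_atTop ((C + 1) * K) hc).bound (show (0 : ℝ) < 1 by norm_num)
  filter_upwards [tendsto_natCast_atTop_atTop.eventually h1, hlogt.eventually_ge_atTop 3,
    eventually_ge_atTop 1] with N hN h2 h4
  have hN0 : (0 : ℝ) < N := by exact_mod_cast h4
  rw [Real.norm_of_nonneg (by positivity), Real.norm_of_nonneg (by positivity), one_mul] at hN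
  refine le_trans ?_ hN
  rw [Real.rpow_mul (by linarith), Real.rpow_natCast]
  refine pow_le_pow_left₀ (by positivity) ?_ K
  rw [Real.rpow_add (by linarith), Real.rpow_one]
  have h5 : (1 : ℝ) ≤ Real.log N ^ C := Real.one_le_rpow (by linarith) hC
  nlinarith

/-- logarithms: the windows start high enough -/
theorem ev_win (C : ℝ) (hC : 0 ≤ C) {h α δ : ℝ} (hh : 1 ≤ h) (hα : 0 < α) (hδ : 0 < δ) : ∀ᶠ M : ℕ in atTop,
    ∀ t : ℕ, α * (δ * M) ^ h ≤ t → 0 < Real.log t ∧ Real.log M ^ C ≤ Real.log t ^ (C + 1) := by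
  have hlogt : Tendsto (fun N : ℕ => Real.log (N : ℝ)) atTop atTop :=
    Real.tendsto_log_atTop.comp tendsto_natCast_atTop_atTop
  filter_upwards [hlogt.eventually_ge_atTop (2 * (|Real.log α| + h * |Real.log δ|)),
    hlogt.eventually_ge_atTop (2 ^ (C + 1)), eventually_ge_atTop 1] with M h1 h2 h3 t ht
  have hM0 : (0 : ℝ) < M := by exact_mod_cast h3
  have h4 : Real.log (α * (δ * M) ^ h) ≤ Real.log t := Real.log_le_log (by positivity) ht
  rw [Real.log_mul hα.ne' (by positivity), Real.log_rpow (by positivity), Real.log_mul hδ.ne' hM0.ne'] at h4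
  have h20 : (0 : ℝ) < 2 ^ (C + 1) := by positivity
  have hlM : 0 < Real.log M := by linarith
  have h5 : Real.log M / 2 ≤ Real.log t := by
    have h6 := neg_abs_le (Real.log α)
    have h7 := neg_abs_le (Real.log δ)
    have h8 : h * -|Real.log δ| ≤ h * Real.log δ := mul_le_mul_of_nonneg_left h7 (by linarith)
    have h9 : 1 * Real.log M ≤ h * Real.log M := mul_le_mul_of_nonneg_right hh hlM.le
    nlinarith
  refine ⟨by linarith, ?_⟩
  calc Real.log M ^ C ≤ Real.log M ^ C * (Real.log M / 2 ^ (C + 1)) := by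
        refine le_mul_of_one_le_right (by positivity) ?_
        rw [le_div_iff₀ h20]
        linarith
    _ = (Real.log M / 2) ^ (C + 1) := by
        rw [Real.div_rpow hlM.le (by norm_num), Real.rpow_add hlM C 1, Real.rpow_one]
        ring
    _ ≤ _ := Real.rpow_le_rpow (by positivity) h5 (by positivity)

end Pool.Agent.D0H51.SS
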