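import Pool.Agent.D0H51.SS.Tr

/-!
# Positive lower (upper) density is kept along almost every sequence `⌊α m ^ h⌋`
-/

set_option autoImplicit false

namespace Pool.Agent.D0H51.SS

open Finset MeasureTheory Filter Topology

theorem small_pow {c ε : ℝ} (hc : 0 < c) (hε : 0 < ε) : ∀ᶠ M : ℕ in atTop, (M : ℝ) ^ (1 - c) ≤ ε * M := by
  have h1 := ((tendsto_rpow_neg_atTop hc).comp tendsto_natCast_atTop_atTop).eventually
    (gt_mem_nhds (show (0 : ℝ) < ε from hε))
  filter_upwards [h1, eventually_ge_atTop 1] with M h2 hM1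
  have hM0 : (0 : ℝ) < M := by exact_mod_cast hM1
  simp only [Function.comp] at h2
  have h3 : (M : ℝ) ^ (1 - c) = (M : ℝ) ^ (-c) * M := by
    rw [show (1 - c) = (-c) + 1 by ring, Real.rpow_add hM0, Real.rpow_one]
  rw [h3]
  exact mul_le_mul_of_nonneg_right h2.le hM0.le

open Classical in
/-- lower bounds for the counting function at infinitely many (all large) points carry over -/
theorem low (h : ℝ) (hh : 1 ≤ h) (E : Set ℕ) : ∀ᵐ α : ℝ, 0 < α → ∀ c : ℝ, 0 < c →
    ((∀ᶠ N : ℕ in atTop, c * N ≤ (((range (N + 1)).filter (· ∈ E)).card : ℝ)) →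
      ∀ᶠ M : ℕ in atTop, c / (4 * h) * M ≤ (((Icc 1 M).filter (fun n : ℕ => ⌊α * (n : ℝ) ^ h⌋₊ ∈ E)).card : ℝ)) ∧
    ((∃ᶠ N : ℕ in atTop, c * N ≤ (((range (N + 1)).filter (· ∈ E)).card : ℝ)) →
      ∃ᶠ M : ℕ in atTop, c / (8 * h) * M ≤ (((Icc 1 M).filter (fun n : ℕ => ⌊α * (n : ℝ) ^ h⌋₊ ∈ E)).card : ℝ)) := by
  have hh0 : 0 < h := by linarith
  obtain ⟨c', hc'0, hc'1, htr⟩ := transfer h hh
  filter_upwards [htr fun _ => E] with α hα hα0 c hc
  have hXt : Tendsto (fun M : ℕ => α * (M : ℝ) ^ h) atTop atTop :=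
    ((tendsto_rpow_atTop hh0).comp tendsto_natCast_atTop_atTop).const_mul_atTop hα0
  have hbase : ∀ᶠ M : ℕ in atTop, ((M : ℝ) / (h * (α * (M : ℝ) ^ h))) *
      (((range ⌊α * (M : ℝ) ^ h⌋₊).filter (· ∈ E)).card : ℝ) - (M : ℝ) ^ (1 - c') ≤
        (((Icc 1 M).filter (fun n : ℕ => ⌊α * (n : ℝ) ^ h⌋₊ ∈ E)).card : ℝ) := by
    filter_upwards [hα hα0, eventually_ge_atTop 1] with M hM hM1
    refine (hM 0 ?_).1
    rw [Nat.cast_zero]
    positivity
  constructor
  · intro hN
    have hfl : Tendsto (fun M : ℕ => ⌊α * (M : ℝ) ^ h⌋₊ - 1) atTop atTop :=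
      (tendsto_sub_atTop_nat 1).comp (tendsto_nat_floor_atTop.comp hXt)
    filter_upwards [hbase, small_pow hc'0 (show 0 < c / (4 * h) by positivity), hfl.eventually hN,
      hXt.eventually_ge_atTop 4, eventually_ge_atTop 1] with M h1 h2 h3 h4 hM1
    have hM0 : (0 : ℝ) < M := by exact_mod_cast hM1
    obtain ⟨X, hX⟩ : ∃ X : ℝ, X = α * (M : ℝ) ^ h := ⟨_, rfl⟩
    rw [← hX] at h1 h3 h4
    have hX0 : 0 < X := by linarith
    have hfl1 : 1 ≤ ⌊X⌋₊ := Nat.one_le_floor_iff X |>.2 (by linarith)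
    rw [Nat.sub_add_cancel hfl1, Nat.cast_sub hfl1, Nat.cast_one] at h3
    have h5 : X < ⌊X⌋₊ + 1 := Nat.lt_floor_add_one X
    have h6 : c * (X / 2) ≤ (((range ⌊X⌋₊).filter (· ∈ E)).card : ℝ) := by
      refine le_trans ?_ h3
      apply mul_le_mul_of_nonneg_left _ hc.le
      linarith
    have h7 : c / (2 * h) * M ≤ ((M : ℝ) / (h * X)) * (((range ⌊X⌋₊).filter (· ∈ E)).card : ℝ) := by
      calc c / (2 * h) * M = ((M : ℝ) / (h * X)) * (c * (X / 2)) := by
            field_simp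
        _ ≤ _ := mul_le_mul_of_nonneg_left h6 (by positivity)
    have h8 : c / (2 * h) * M = c / (4 * h) * M + c / (4 * h) * M := by
      field_simp
      norm_num
    linarith
  · intro hN
    -- the map `N ↦ M`
    obtain ⟨m, hm⟩ : ∃ m : ℕ → ℕ, m = fun N : ℕ => ⌈(((N : ℝ) + 1) / α) ^ (1 / h)⌉₊ := ⟨_, rfl⟩
    have hyt : Tendsto (fun N : ℕ => (((N : ℝ) + 1) / α) ^ (1 / h)) atTop atTop := by
      refine (tendsto_rpow_atTop (by positivity)).comp ?_
      exact (tendsto_atTop_add_const_right _ _ tendsto_natCast_atTop_atTop).atTop_div_const hα0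
    have hmt : Tendsto m atTop atTop := by
      rw [hm]
      exact tendsto_nat_ceil_atTop.comp hyt
    refine hmt.frequently ?_
    have hc2 : (0 : ℝ) < 1 / ((2 : ℝ) ^ (1 / h) - 1) := by
      have : (1 : ℝ) < (2 : ℝ) ^ (1 / h) := Real.one_lt_rpow (by norm_num) (by positivity)
      exact one_div_pos.2 (by linarith)
    refine (hN.and_eventually ((hmt.eventually hbase).and ((hmt.eventually
      (small_pow hc'0 (show 0 < c / (8 * h) by positivity))).and ((hyt.eventually_ge_atTop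
        (1 / ((2 : ℝ) ^ (1 / h) - 1))).and (eventually_ge_atTop 1))))).mono ?_
    rintro N ⟨h1, h2, h3, h4, hN1⟩
    have hN1r : (1 : ℝ) ≤ N := by exact_mod_cast hN1
    obtain ⟨M, hM⟩ : ∃ M : ℕ, M = m N := ⟨_, rfl⟩
    rw [← hM] at h2 h3 ⊢
    obtain ⟨y, hy⟩ : ∃ y : ℝ, y = (((N : ℝ) + 1) / α) ^ (1 / h) := ⟨_, rfl⟩
    rw [← hy] at h4
    have hy0 : 0 < y := hc2.trans_le h4
    have hMy : y ≤ M := by
      rw [hM, hm, hy]
      exact Nat.le_ceil _
    have hMy2 : (M : ℝ) ≤ (2 : ℝ) ^ (1 / h) * y := by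
      have h5 : (M : ℝ) < y + 1 := by
        rw [hM, hm, hy]
        exact Nat.ceil_lt_add_one (by rw [← hy]; exact hy0.le)
      have h6 : (1 : ℝ) < (2 : ℝ) ^ (1 / h) := Real.one_lt_rpow (by norm_num) (by positivity)
      rw [div_le_iff₀ (by linarith)] at h4
      nlinarith
    have hM0 : (0 : ℝ) < M := hy0.trans_le hMy
    have hyh : y ^ h = ((N : ℝ) + 1) / α := by
      rw [hy, ← Real.rpow_mul (by positivity)]
      have : 1 / h * h = 1 := by field_simp
      rw [this, Real.rpow_one]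
    obtain ⟨X, hX⟩ : ∃ X : ℝ, X = α * (M : ℝ) ^ h := ⟨_, rfl⟩
    rw [← hX] at h2
    have hX1 : (N : ℝ) + 1 ≤ X := by
      calc (N : ℝ) + 1 = α * y ^ h := by
            rw [hyh]
            field_simp
        _ ≤ _ := by
            rw [hX]
            exact mul_le_mul_of_nonneg_left (Real.rpow_le_rpow hy0.le hMy hh0.le) hα0.le
    have hX2 : X ≤ 4 * N := by
      calc X ≤ α * ((2 : ℝ) ^ (1 / h) * y) ^ h := by
            rw [hX]
            exact mul_le_mul_of_nonneg_left (Real.rpow_le_rpow hM0.le hMy2 hh0.le) hα0.le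
        _ = 2 * (N + 1) := by
            rw [Real.mul_rpow (by positivity) hy0.le, hyh, ← Real.rpow_mul (by norm_num)]
            have : 1 / h * h = 1 := by field_simp
            rw [this, Real.rpow_one]
            field_simp
        _ ≤ 4 * N := by linarith
    have hX0 : 0 < X := by linarith
    have h6 : c * (X / 4) ≤ (((range ⌊X⌋₊).filter (· ∈ E)).card : ℝ) := by
      have h7 : N + 1 ≤ ⌊X⌋₊ := Nat.le_floor (by push_cast; exact hX1)
      calc c * (X / 4) ≤ c * N := by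
            apply mul_le_mul_of_nonneg_left _ hc.le
            linarith
        _ ≤ _ := h1
        _ ≤ _ := by
            refine Nat.cast_le.2 (Finset.card_le_card (Finset.filter_subset_filter _ ?_))
            intro a ha
            rw [Finset.mem_range] at ha ⊢
            omega
    have h7 : c / (4 * h) * M ≤ ((M : ℝ) / (h * X)) * (((range ⌊X⌋₊).filter (· ∈ E)).card : ℝ) := by
      calc c / (4 * h) * M = ((M : ℝ) / (h * X)) * (c * (X / 4)) := by
            field_simp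
        _ ≤ _ := mul_le_mul_of_nonneg_left h6 (by positivity)
    have h8 : c / (4 * h) * M = c / (8 * h) * M + c / (8 * h) * M := by
      field_simp
      norm_num
    linarith

end Pool.Agent.D0H51.SS
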