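import Pool.Agent.D0H51.SS.Low

/-!
# Sets of density zero along almost every sequence `⌊α m ^ h⌋`
-/

set_option autoImplicit false

namespace Pool.Agent.D0H51.SS

open Finset MeasureTheory Filter Topology

open Classical in
/-- counting functions of order at least `x / (log x) ^ K` -/
theorem low_log (h : ℝ) (hh : 1 ≤ h) (E : Set ℕ) (K : ℕ) : ∀ᵐ α : ℝ, 0 < α → ∀ κ : ℝ, 0 < κ →
    (∀ᶠ x : ℕ in atTop, κ * x / Real.log x ^ K ≤ (((range (x + 1)).filter (· ∈ E)).card : ℝ)) →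
      ∀ᶠ N : ℕ in atTop, κ / (4 * h * (2 * h) ^ K) * (N / Real.log N ^ K) ≤
        (((Icc 1 N).filter (fun n : ℕ => ⌊α * (n : ℝ) ^ h⌋₊ ∈ E)).card : ℝ) := by
  have hh0 : 0 < h := by linarith
  obtain ⟨c, hc0, hc1, htr⟩ := transfer h hh
  filter_upwards [htr fun _ => E] with α hα hα0 κ hκ hst
  have hXt : Tendsto (fun M : ℕ => α * (M : ℝ) ^ h) atTop atTop :=
    ((tendsto_rpow_atTop hh0).comp tendsto_natCast_atTop_atTop).const_mul_atTop hα0
  have hfl : Tendsto (fun M : ℕ => ⌊α * (M : ℝ) ^ h⌋₊ - 1) atTop atTop :=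
    (tendsto_sub_atTop_nat 1).comp (tendsto_nat_floor_atTop.comp hXt)
  filter_upwards [hα hα0, hfl.eventually hst, hXt.eventually_ge_atTop 4, eventually_ge_atTop 1,
    Pool.Agent.W301.SS.ev_log K (4 * h * (2 * h) ^ K / κ) c hc0,
    (Real.tendsto_log_atTop.comp tendsto_natCast_atTop_atTop).eventually_ge_atTop (|Real.log α| + 1)]
    with N hN h3 h4 hN1 h5 h6
  have hN0 : (0 : ℝ) < N := by exact_mod_cast hN1
  simp only [Function.comp] at h6
  have hbase := (hN 0 (by rw [Nat.cast_zero]; positivity)).1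
  obtain ⟨X, hX⟩ : ∃ X : ℝ, X = α * (N : ℝ) ^ h := ⟨_, rfl⟩
  have hlX : Real.log X = Real.log α + h * Real.log N := by
    rw [hX, Real.log_mul hα0.ne' (by positivity), Real.log_rpow hN0]
  rw [← hX] at h3 h4 hbase
  have hX0 : 0 < X := by linarith
  have hfl1 : 1 ≤ ⌊X⌋₊ := Nat.one_le_floor_iff X |>.2 (by linarith)
  obtain ⟨Y, hY⟩ : ∃ Y : ℕ, Y = ⌊X⌋₊ - 1 := ⟨_, rfl⟩
  rw [← hY] at h3
  have hY1 : (Y : ℝ) = ⌊X⌋₊ - 1 := by
    rw [hY, Nat.cast_sub hfl1, Nat.cast_one]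
  have hYs : Y + 1 = ⌊X⌋₊ := by omega
  have hXl : X < ⌊X⌋₊ + 1 := Nat.lt_floor_add_one X
  have hXu : (⌊X⌋₊ : ℝ) ≤ X := Nat.floor_le hX0.le
  have hY2 : X / 2 ≤ Y := by linarith
  have hY0 : (2 : ℝ) ≤ Y := by linarith
  have hlog0 : 0 < Real.log Y := Real.log_pos (by linarith)
  have hlogN : 0 < Real.log N := by linarith [abs_nonneg (Real.log α)]
  have hlog1 : Real.log Y ≤ 2 * h * Real.log N := by
    have h7 : Real.log Y ≤ Real.log X := Real.log_le_log (by linarith) (by linarith)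
    have h8 := le_abs_self (Real.log α)
    rw [hlX] at h7
    nlinarith
  rw [hYs] at h3
  have hcard : κ * (X / 2) / (2 * h * Real.log N) ^ K ≤ (((range ⌊X⌋₊).filter (· ∈ E)).card : ℝ) := by
    refine le_trans ?_ h3
    gcongr
  have h9 : κ / (2 * h * (2 * h) ^ K) * (N / Real.log N ^ K) ≤
      ((N : ℝ) / (h * X)) * (((range ⌊X⌋₊).filter (· ∈ E)).card : ℝ) := by
    calc κ / (2 * h * (2 * h) ^ K) * (N / Real.log N ^ K) =
          ((N : ℝ) / (h * X)) * (κ * (X / 2) / (2 * h * Real.log N) ^ K) := by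
          simp only [mul_pow]
          field_simp
      _ ≤ _ := mul_le_mul_of_nonneg_left hcard (by positivity)
  have h10 : (N : ℝ) ^ (1 - c) ≤ κ / (4 * h * (2 * h) ^ K) * (N / Real.log N ^ K) := by
    have e : (N : ℝ) ^ (1 - c) = N / (N : ℝ) ^ c := by
      rw [Real.rpow_sub hN0, Real.rpow_one]
    rw [e, div_le_iff₀ (by positivity)]
    calc (N : ℝ) = κ / (4 * h * (2 * h) ^ K) * (N / Real.log N ^ K) *
          (4 * h * (2 * h) ^ K / κ * Real.log N ^ K) := by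
          field_simp
      _ ≤ _ := mul_le_mul_of_nonneg_left h5 (by positivity)
  have h11 : κ / (2 * h * (2 * h) ^ K) * (N / Real.log N ^ K) =
      κ / (4 * h * (2 * h) ^ K) * (N / Real.log N ^ K) + κ / (4 * h * (2 * h) ^ K) * (N / Real.log N ^ K) := by
    field_simp
    norm_num
  linarith

open Classical in
/-- counting functions larger than `x ^ (1 - η)` for all `η > 0`, at infinitely many points -/
theorem low_pow (h : ℝ) (hh : 1 ≤ h) (E : ℕ → Set ℕ) : ∀ᵐ α : ℝ, 0 < α → ∀ R : ℕ,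
    (∀ η : ℝ, 0 < η → η ≤ 1 → ∃ᶠ x : ℕ in atTop,
      (x : ℝ) ^ (1 - η) ≤ (((range (x + 1)).filter (· ∈ E R)).card : ℝ)) →
      ∀ η : ℝ, 0 < η → ∃ᶠ N : ℕ in atTop, (N : ℝ) ^ (1 - η) ≤
        (((Icc 1 N).filter (fun n : ℕ => ⌊α * (n : ℝ) ^ h⌋₊ ∈ E R)).card : ℝ) := by
  have hh0 : 0 < h := by linarith
  obtain ⟨c', hc'0, hc'1, htr⟩ := transfer h hh
  have h0 := ae_all_iff.2 fun R => htr fun _ => E R
  filter_upwards [h0] with α hα hα0 R hst η hη
  have hbase : ∀ᶠ M : ℕ in atTop, ((M : ℝ) / (h * (α * (M : ℝ) ^ h))) *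
      (((range ⌊α * (M : ℝ) ^ h⌋₊).filter (· ∈ E R)).card : ℝ) - (M : ℝ) ^ (1 - c') ≤
        (((Icc 1 M).filter (fun n : ℕ => ⌊α * (n : ℝ) ^ h⌋₊ ∈ E R)).card : ℝ) := by
    filter_upwards [hα R hα0, eventually_ge_atTop 1] with M hM hM1
    refine (hM 0 ?_).1
    rw [Nat.cast_zero]
    positivity
  obtain ⟨e, he⟩ : ∃ e : ℝ, e = min η c' := ⟨_, rfl⟩
  have he0 : 0 < e := by rw [he]; positivity
  have he1 : e ≤ η := by rw [he]; exact min_le_left _ _
  have he2 : e ≤ c' := by rw [he]; exact min_le_right _ _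
  obtain ⟨s, hs⟩ : ∃ s : ℝ, s = e / (2 * h) := ⟨_, rfl⟩
  have hs0 : 0 < s := by rw [hs]; positivity
  have hsh : h * s = e / 2 := by rw [hs]; field_simp
  have hs1 : s ≤ 1 := by
    rw [hs, div_le_one (by positivity)]
    linarith
  obtain ⟨m, hm⟩ : ∃ m : ℕ → ℕ, m = fun N : ℕ => ⌈(((N : ℝ) + 1) / α) ^ (1 / h)⌉₊ := ⟨_, rfl⟩
  have hyt : Tendsto (fun N : ℕ => (((N : ℝ) + 1) / α) ^ (1 / h)) atTop atTop := by
    refine (tendsto_rpow_atTop (by positivity)).comp ?_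
    exact (tendsto_atTop_add_const_right _ _ tendsto_natCast_atTop_atTop).atTop_div_const hα0
  have hmt : Tendsto m atTop atTop := by
    rw [hm]
    exact tendsto_nat_ceil_atTop.comp hyt
  refine hmt.frequently ?_
  have hc2 : (0 : ℝ) < 1 / ((2 : ℝ) ^ (1 / h) - 1) := by
    have : (1 : ℝ) < (2 : ℝ) ^ (1 / h) := Real.one_lt_rpow (by norm_num) (by positivity)
    exact one_div_pos.2 (by linarith)
  -- the final comparison of powers
  have hpw : ∀ᶠ M : ℕ in atTop, (8 * h * α ^ s : ℝ) * 1 ≤ (M : ℝ) ^ (e / 2) := by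
    simpa using Pool.Agent.W301.SS.ev_log 0 (8 * h * α ^ s) (e / 2) (by positivity)
  refine ((hst s hs0 hs1).and_eventually ((hmt.eventually hbase).and ((hmt.eventually hpw).and
    ((hyt.eventually_ge_atTop (1 / ((2 : ℝ) ^ (1 / h) - 1))).and (eventually_ge_atTop 1))))).mono ?_
  rintro N ⟨h1, h2, h3, h4, hN1⟩
  have hN1r : (1 : ℝ) ≤ N := by exact_mod_cast hN1
  have hN0r : (0 : ℝ) < N := by linarith
  obtain ⟨M, hM⟩ : ∃ M : ℕ, M = m N := ⟨_, rfl⟩
  rw [← hM] at h2 h3 ⊢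
  obtain ⟨y, hy⟩ : ∃ y : ℝ, y = (((N : ℝ) + 1) / α) ^ (1 / h) := ⟨_, rfl⟩
  rw [← hy] at h4
  have hy0 : 0 < y := hc2.trans_le h4
  have hMy : y ≤ M := by
    rw [hM, hm, hy]
    exact Nat.le_ceil _
  have hM0 : (0 : ℝ) < M := hy0.trans_le hMy
  have hM1 : (1 : ℝ) ≤ M := by
    have : 0 < M := by exact_mod_cast hM0
    exact_mod_cast this
  have hMy2 : (M : ℝ) ≤ (2 : ℝ) ^ (1 / h) * y := by
    have h5 : (M : ℝ) < y + 1 := by
      rw [hM, hm, hy]
      exact Nat.ceil_lt_add_one (by rw [← hy]; exact hy0.le)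
    have h6 : (1 : ℝ) < (2 : ℝ) ^ (1 / h) := Real.one_lt_rpow (by norm_num) (by positivity)
    rw [div_le_iff₀ (by linarith)] at h4
    nlinarith
  have hyh : y ^ h = ((N : ℝ) + 1) / α := by
    rw [hy, ← Real.rpow_mul (by positivity)]
    have : 1 / h * h = 1 := by field_simp
    rw [this, Real.rpow_one]
  obtain ⟨X, hX⟩ : ∃ X : ℝ, X = α * (M : ℝ) ^ h := ⟨_, rfl⟩
  rw [← hX] at h2
  have hX1 : (N : ℝ) + 1 ≤ X := by
    calc (N : ℝ) + 1 = α * y ^ h := by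
          rw [hyh]
          field_simp
      _ ≤ _ := by
          rw [hX]
          exact mul_le_mul_of_nonneg_left (Real.rpow_le_rpow hy0.le hMy hh0.le) hα0.le
  have hX2 : X ≤ 4 * N := by
    calc X ≤ α * ((2 : ℝ) ^ (1 / h) * y) ^ h := by
          rw [hX]
          exact mul_le_mul_of_nonneg_left (Real.rpow_le_rpow hM0.le hMy2 hh0.le) hα0.le
      _ = 2 * (N + 1) := by
          rw [Real.mul_rpow (by positivity) hy0.le, hyh, ← Real.rpow_mul (by norm_num)]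
          have : 1 / h * h = 1 := by field_simp
          rw [this, Real.rpow_one]
          field_simp
      _ ≤ 4 * N := by linarith
  have hX0 : 0 < X := by linarith
  have h6 : (N : ℝ) ^ (1 - s) ≤ (((range ⌊X⌋₊).filter (· ∈ E R)).card : ℝ) := by
    have h7 : N + 1 ≤ ⌊X⌋₊ := Nat.le_floor (by push_cast; exact hX1)
    refine h1.trans ?_
    refine Nat.cast_le.2 (Finset.card_le_card (Finset.filter_subset_filter _ ?_))
    intro a ha
    rw [Finset.mem_range] at ha ⊢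
    omega
  -- `N ^ (1 - s) ≥ (X / 4) * X ^ (-s)` and `X ^ (-s) = α ^ (-s) * M ^ (-e / 2)`
  have hXs : X ^ s = α ^ s * (M : ℝ) ^ (e / 2) := by
    rw [hX, Real.mul_rpow hα0.le (by positivity), ← Real.rpow_mul hM0.le, hsh]
  have h7 : (X / 4) / X ^ s ≤ (N : ℝ) ^ (1 - s) := by
    rw [Real.rpow_sub hN0r, Real.rpow_one]
    have : (N : ℝ) ^ s ≤ X ^ s := Real.rpow_le_rpow hN0r.le (by linarith) hs0.le
    have h8 : X / 4 ≤ N := by linarith
    gcongr
  have h8 : (M : ℝ) / (4 * h) / (α ^ s * (M : ℝ) ^ (e / 2)) ≤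
      ((M : ℝ) / (h * X)) * (((range ⌊X⌋₊).filter (· ∈ E R)).card : ℝ) := by
    calc (M : ℝ) / (4 * h) / (α ^ s * (M : ℝ) ^ (e / 2)) = ((M : ℝ) / (h * X)) * ((X / 4) / X ^ s) := by
          rw [hXs]
          field_simp
      _ ≤ _ := mul_le_mul_of_nonneg_left (h7.trans h6) (by positivity)
  have h9 : 2 * (M : ℝ) ^ (1 - e) ≤ (M : ℝ) / (4 * h) / (α ^ s * (M : ℝ) ^ (e / 2)) := by
    have e1 : (M : ℝ) ^ (1 - e) = M / ((M : ℝ) ^ (e / 2) * (M : ℝ) ^ (e / 2)) := by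
      rw [Real.rpow_sub hM0, Real.rpow_one, ← Real.rpow_add hM0]
      congr 2
      ring
    rw [e1, div_div, le_div_iff₀ (by positivity)]
    calc 2 * (M / ((M : ℝ) ^ (e / 2) * (M : ℝ) ^ (e / 2))) * (4 * h * (α ^ s * (M : ℝ) ^ (e / 2))) =
          M * ((8 * h * α ^ s * 1) / (M : ℝ) ^ (e / 2)) := by
          field_simp
          norm_num
      _ ≤ M * 1 := by
          apply mul_le_mul_of_nonneg_left _ hM0.le
          rw [div_le_one (by positivity)]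
          exact h3
      _ = M := mul_one _
  have h10 : (M : ℝ) ^ (1 - c') ≤ (M : ℝ) ^ (1 - e) := Real.rpow_le_rpow_of_exponent_le hM1 (by linarith)
  have h11 : (M : ℝ) ^ (1 - η) ≤ (M : ℝ) ^ (1 - e) := Real.rpow_le_rpow_of_exponent_le hM1 (by linarith)
  linarith

end Pool.Agent.D0H51.SS
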