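import Pool.Agent.D0H51.SS.Low

/-!
# Counting functions of order `x / (log log x) ^ b` along almost every sequence `⌊α m ^ h⌋`
-/

set_option autoImplicit false

namespace Pool.Agent.D0H51.SS

open Finset MeasureTheory Filter Topology

open Classical in
/-- counting functions of order at least `x / (log log x) ^ (b + ε)` for all `ε > 0` -/
theorem low_loglog (h : ℝ) (hh : 1 ≤ h) (E : ℕ → Set ℕ) : ∀ᵐ α : ℝ, 0 < α → ∀ R : ℕ, ∀ b : ℝ, 0 ≤ b →
    (∀ ε : ℝ, 0 < ε → ∀ᶠ x : ℕ in atTop,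
      (x : ℝ) / Real.log (Real.log x) ^ (b + ε) ≤ (((range (x + 1)).filter (· ∈ E R)).card : ℝ)) →
      ∀ ε : ℝ, 0 < ε → ∀ᶠ N : ℕ in atTop, (N : ℝ) / Real.log (Real.log N) ^ (b + ε) ≤
        (((Icc 1 N).filter (fun n : ℕ => ⌊α * (n : ℝ) ^ h⌋₊ ∈ E R)).card : ℝ) := by
  have hh0 : 0 < h := by linarith
  obtain ⟨c, hc0, hc1, htr⟩ := transfer h hh
  have h0 := ae_all_iff.2 fun R => htr fun _ => E R
  filter_upwards [h0] with α hα hα0 R b hb hst ε hε
  have hXt : Tendsto (fun M : ℕ => α * (M : ℝ) ^ h) atTop atTop :=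
    ((tendsto_rpow_atTop hh0).comp tendsto_natCast_atTop_atTop).const_mul_atTop hα0
  have hfl : Tendsto (fun M : ℕ => ⌊α * (M : ℝ) ^ h⌋₊ - 1) atTop atTop :=
    (tendsto_sub_atTop_nat 1).comp (tendsto_nat_floor_atTop.comp hXt)
  have hlogt : Tendsto (fun N : ℕ => Real.log (N : ℝ)) atTop atTop :=
    Real.tendsto_log_atTop.comp tendsto_natCast_atTop_atTop
  have hllt : Tendsto (fun N : ℕ => Real.log (Real.log (N : ℝ))) atTop atTop :=
    Real.tendsto_log_atTop.comp hlogt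
  obtain ⟨p, hp⟩ : ∃ p : ℝ, p = b + ε / 2 := ⟨_, rfl⟩
  have hp0 : 0 < p := by rw [hp]; positivity
  -- (A) the power of `log log` is smaller than `N ^ c`
  have hA : ∀ᶠ N : ℕ in atTop, Real.log (Real.log N) ^ (b + ε) ≤ (N : ℝ) ^ c := by
    have h1 := (isLittleO_log_rpow_rpow_atTop (b + ε) hc0).bound (show (0 : ℝ) < 1 by norm_num)
    filter_upwards [tendsto_natCast_atTop_atTop.eventually h1, hlogt.eventually_ge_atTop 1,
      hllt.eventually_ge_atTop 0, eventually_ge_atTop 1] with N hN h2 h3 h4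
    have hN0 : (0 : ℝ) < N := by exact_mod_cast h4
    have h5 : Real.log (Real.log N) ≤ Real.log N := by
      have := Real.log_le_sub_one_of_pos (show 0 < Real.log (N : ℝ) by linarith)
      linarith
    rw [Real.norm_of_nonneg (by positivity), Real.norm_of_nonneg (by positivity), one_mul] at hN
    exact (Real.rpow_le_rpow h3 h5 (by positivity)).trans hN
  have hB : ∀ᶠ N : ℕ in atTop, 4 * h * 2 ^ p ≤ Real.log (Real.log N) ^ (ε / 2) :=
    ((tendsto_rpow_atTop (by positivity : (0 : ℝ) < ε / 2)).comp hllt).eventually_ge_atTop _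
  filter_upwards [hα R hα0, hfl.eventually (hst (ε / 2) (by positivity)), hXt.eventually_ge_atTop 4,
    eventually_ge_atTop 1, hlogt.eventually_ge_atTop (|Real.log α| + 1),
    hllt.eventually_ge_atTop (max 1 (Real.log (2 * h))), (hllt.comp hfl).eventually_ge_atTop 1, hA, hB]
    with N hN h3 h4 hN1 h6 h7 h8 hAN hBN
  have hN0 : (0 : ℝ) < N := by exact_mod_cast hN1
  simp only [Function.comp] at h8
  have hbase := (hN 0 (by rw [Nat.cast_zero]; positivity)).1
  obtain ⟨X, hX⟩ : ∃ X : ℝ, X = α * (N : ℝ) ^ h := ⟨_, rfl⟩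
  have hlX : Real.log X = Real.log α + h * Real.log N := by
    rw [hX, Real.log_mul hα0.ne' (by positivity), Real.log_rpow hN0]
  rw [← hX] at h3 h4 hbase h8
  have hX0 : 0 < X := by linarith
  have hfl1 : 1 ≤ ⌊X⌋₊ := Nat.one_le_floor_iff X |>.2 (by linarith)
  obtain ⟨Y, hY⟩ : ∃ Y : ℕ, Y = ⌊X⌋₊ - 1 := ⟨_, rfl⟩
  rw [← hY] at h3 h8
  have hY1 : (Y : ℝ) = ⌊X⌋₊ - 1 := by
    rw [hY, Nat.cast_sub hfl1, Nat.cast_one]
  have hYs : Y + 1 = ⌊X⌋₊ := by omega
  have hXl : X < ⌊X⌋₊ + 1 := Nat.lt_floor_add_one X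
  have hXu : (⌊X⌋₊ : ℝ) ≤ X := Nat.floor_le hX0.le
  have hY2 : X / 2 ≤ Y := by linarith
  have hY0 : (2 : ℝ) ≤ Y := by linarith
  have hlog0 : 0 < Real.log Y := Real.log_pos (by linarith)
  have hlogN : 0 < Real.log N := by linarith [abs_nonneg (Real.log α)]
  have hlog1 : Real.log Y ≤ 2 * h * Real.log N := by
    have h9 : Real.log Y ≤ Real.log X := Real.log_le_log (by linarith) (by linarith)
    have h10 := le_abs_self (Real.log α)
    rw [hlX] at h9
    nlinarith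
  have hll1 : Real.log (Real.log Y) ≤ 2 * Real.log (Real.log N) := by
    have h9 := Real.log_le_log hlog0 hlog1
    rw [Real.log_mul (by positivity) hlogN.ne'] at h9
    have h10 := le_max_right 1 (Real.log (2 * h))
    linarith
  have hL1 : 1 ≤ Real.log (Real.log N) := le_trans (le_max_left _ _) h7
  rw [hYs, ← hp] at h3
  obtain ⟨L, hL⟩ : ∃ L : ℝ, L = Real.log (Real.log (N : ℝ)) := ⟨_, rfl⟩
  rw [← hL] at hAN hBN hll1 hL1 ⊢
  have hL0 : 0 < L := by linarith
  have hcard : (X / 2) / (2 * L) ^ p ≤ (((range ⌊X⌋₊).filter (· ∈ E R)).card : ℝ) := by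
    refine le_trans ?_ h3
    have h9 : Real.log (Real.log Y) ^ p ≤ (2 * L) ^ p := Real.rpow_le_rpow (by linarith) hll1 hp0.le
    have h10 : 0 < Real.log (Real.log Y) ^ p := Real.rpow_pos_of_pos (by linarith) _
    gcongr
  have h9 : 2 * (N / L ^ (b + ε)) ≤ ((N : ℝ) / (h * X)) * (((range ⌊X⌋₊).filter (· ∈ E R)).card : ℝ) := by
    have h10 : ((N : ℝ) / (h * X)) * ((X / 2) / (2 * L) ^ p) = N / (2 * h * 2 ^ p * L ^ p) := by
      rw [Real.mul_rpow (by norm_num) hL0.le]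
      field_simp
    have h11 : L ^ (b + ε) = L ^ p * L ^ (ε / 2) := by
      rw [← Real.rpow_add hL0, hp]
      ring_nf
    have hLp : 0 < L ^ p := Real.rpow_pos_of_pos hL0 _
    have h12 : 2 * (N / L ^ (b + ε)) ≤ N / (2 * h * 2 ^ p * L ^ p) := by
      rw [h11, mul_div_assoc', div_le_div_iff₀ (by positivity) (by positivity)]
      have h13 : 4 * h * 2 ^ p * (N * L ^ p) ≤ L ^ (ε / 2) * (N * L ^ p) :=
        mul_le_mul_of_nonneg_right hBN (by positivity)
      nlinarith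
    rw [← h10] at h12
    exact h12.trans (mul_le_mul_of_nonneg_left hcard (by positivity))
  have h10 : (N : ℝ) ^ (1 - c) ≤ N / L ^ (b + ε) := by
    have e : (N : ℝ) ^ (1 - c) = N / (N : ℝ) ^ c := by
      rw [Real.rpow_sub hN0, Real.rpow_one]
    rw [e]
    have : 0 < L ^ (b + ε) := Real.rpow_pos_of_pos hL0 _
    gcongr
  linarith

end Pool.Agent.D0H51.SS
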