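import Pool.Agent.D0H91.US.App

/-!
# Counting results along almost every sparse sequence `⌊α m ^ h⌋`

The universal sampling theorem `Pool.Agent.D0H91.US.us_ae` (helper91) compares, for almost every `α > 0`, the sum of an
arbitrary arithmetic function over `⌊α n ^ h⌋`, `n ≤ N`, with an integral. Here: for a family of arbitrary sets
`E j` of natural numbers, `h ≥ 1`, almost every `α > 0`, the number of `n ≤ N` with `⌊α n ^ h⌋ ∈ E j` is bounded
from below and from above by the counting function of `E j` at `α N ^ h`.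
-/

set_option autoImplicit false

namespace Pool.Agent.D0H51.SS

open Finset MeasureTheory Filter Topology
open Pool.Agent.D0H91.US

theorem int_upper {k α δ : ℝ} (hk : 1 ≤ k) (hα : 0 < α) (hδ : 0 < δ) (hδ1 : δ ≤ 1) (N : ℕ) (hN : 1 ≤ N)
    (g : ℝ → ℝ) (hgm : Measurable g) (hg0 : ∀ x, 0 ≤ g x) (hg1 : ∀ x, g x ≤ 1) :
    ∫ u in (0 : ℝ)..N, g (α * u ^ k) ≤
      δ * N + ((N : ℝ) / (k * δ ^ (k - 1) * (α * (N : ℝ) ^ k))) * ∫ x in (0 : ℝ)..(α * (N : ℝ) ^ k), g x := by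
  have hk0 : 0 < k := by linarith
  have hN1 : (1 : ℝ) ≤ N := by exact_mod_cast hN
  have hN0 : (0 : ℝ) < N := by linarith
  have hX0 : 0 < α * (N : ℝ) ^ k := by positivity
  have hD0 : 0 < δ * N := by positivity
  have hDN : δ * N ≤ N := by nlinarith
  have hii : ∀ a b : ℝ, IntervalIntegrable (fun u : ℝ => g (α * u ^ k)) volume a b := by
    intro a b
    rw [intervalIntegrable_iff]
    refine Measure.integrableOn_of_bounded (M := 1) (by simp) (hgm.comp (by fun_prop)).aestronglyMeasurable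
      (Filter.Eventually.of_forall fun u => ?_)
    rw [Real.norm_eq_abs, abs_of_nonneg (hg0 _)]
    exact hg1 _
  rw [← intervalIntegral.integral_add_adjacent_intervals (hii 0 (δ * N)) (hii (δ * N) N)]
  have hA : ∫ u in (0 : ℝ)..(δ * N), g (α * u ^ k) ≤ δ * N := by
    have h1 : ∫ u in (0 : ℝ)..(δ * N), g (α * u ^ k) ≤ ∫ _u in (0 : ℝ)..(δ * N), (1 : ℝ) :=
      intervalIntegral.integral_mono_on hD0.le (hii _ _) (by simp) fun u _ => hg1 _
    simpa using h1
  refine add_le_add hA ?_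
  rw [intervalIntegral.integral_of_le hX0.le, intervalIntegral.integral_of_le hDN]
  have himg : (fun u : ℝ => α * u ^ k) '' Set.Ioc (δ * N) N ⊆ Set.Ioc 0 (α * (N : ℝ) ^ k) := by
    rintro x ⟨u, hu, rfl⟩
    have hu0 : 0 < u := hD0.trans hu.1
    exact ⟨by positivity, mul_le_mul_of_nonneg_left (Real.rpow_le_rpow hu0.le hu.2 hk0.le) hα.le⟩
  have hinj : Set.InjOn (fun u : ℝ => α * u ^ k) (Set.Ioc (δ * N) N) := by
    intro u hu v hv huv
    simp only at huv
    have h1 := mul_left_cancel₀ hα.ne' huv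
    exact (Real.rpow_left_inj (hD0.trans hu.1).le (hD0.trans hv.1).le hk0.ne').1 h1
  have hder : ∀ u ∈ Set.Ioc (δ * N) (N : ℝ), HasDerivWithinAt (fun u : ℝ => α * u ^ k) (α * (k * u ^ (k - 1)))
      (Set.Ioc (δ * N) N) u := by
    intro u hu
    apply HasDerivAt.hasDerivWithinAt
    exact (Real.hasDerivAt_rpow_const (Or.inl (hD0.trans hu.1).ne')).const_mul α
  have hcv := integral_image_eq_integral_abs_deriv_smul measurableSet_Ioc hder hinj g
  have hgi : IntegrableOn g (Set.Ioc 0 (α * (N : ℝ) ^ k)) volume := by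
    refine Measure.integrableOn_of_bounded (M := 1) (by simp) hgm.aestronglyMeasurable
      (Filter.Eventually.of_forall fun u => ?_)
    rw [Real.norm_eq_abs, abs_of_nonneg (hg0 _)]
    exact hg1 _
  have hle : ∫ u in Set.Ioc (δ * N) N, |α * (k * u ^ (k - 1))| • g (α * u ^ k) ≤
      ∫ x in Set.Ioc 0 (α * (N : ℝ) ^ k), g x := by
    rw [← hcv]
    exact setIntegral_mono_set hgi (Filter.Eventually.of_forall fun x => hg0 x)
      (Filter.Eventually.of_forall fun x hx => himg hx)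
  set κ : ℝ := (N : ℝ) / (k * δ ^ (k - 1) * (α * (N : ℝ) ^ k)) with hκ
  have hκ0 : 0 < κ := by positivity
  have hpt : ∀ u ∈ Set.Ioc (δ * N) (N : ℝ), g (α * u ^ k) ≤ κ * (|α * (k * u ^ (k - 1))| • g (α * u ^ k)) := by
    intro u hu
    have hu0 := hD0.trans hu.1
    rw [smul_eq_mul, abs_of_pos (by positivity), ← mul_assoc]
    refine le_mul_of_one_le_left (hg0 _) ?_
    have h1 : (δ * N) ^ (k - 1) ≤ u ^ (k - 1) := Real.rpow_le_rpow hD0.le hu.1.le (by linarith)
    rw [Real.mul_rpow hδ.le hN0.le, Real.rpow_sub_one hN0.ne' k] at h1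
    calc (1 : ℝ) = κ * (α * (k * (δ ^ (k - 1) * ((N : ℝ) ^ k / N)))) := by
          rw [hκ]
          field_simp
      _ ≤ _ := by gcongr
  have hmeas : Measurable fun u : ℝ => |α * (k * u ^ (k - 1))| • g (α * u ^ k) := by
    simp only [smul_eq_mul]
    apply Measurable.mul
    · have e : (fun u : ℝ => |α * (k * u ^ (k - 1))|) = fun u => ‖α * (k * u ^ (k - 1))‖ := rfl
      rw [e]
      apply Measurable.norm
      fun_prop
    · exact hgm.comp (by fun_prop)
  have hint2 : IntegrableOn (fun u : ℝ => |α * (k * u ^ (k - 1))| • g (α * u ^ k)) (Set.Ioc (δ * N) (N : ℝ)) volume := by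
    refine Measure.integrableOn_of_bounded (M := α * (k * (N : ℝ) ^ (k - 1))) (by simp) hmeas.aestronglyMeasurable ?_
    refine (ae_restrict_iff' measurableSet_Ioc).2 (Filter.Eventually.of_forall fun u hu => ?_)
    have hu0 := hD0.trans hu.1
    rw [Real.norm_eq_abs, smul_eq_mul, abs_mul, abs_abs, abs_of_nonneg (hg0 _), abs_of_pos (by positivity)]
    have h1 : u ^ (k - 1) ≤ (N : ℝ) ^ (k - 1) := Real.rpow_le_rpow hu0.le hu.2 (by linarith)
    calc α * (k * u ^ (k - 1)) * g (α * u ^ k) ≤ α * (k * (N : ℝ) ^ (k - 1)) * 1 := by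
          have := hg1 (α * u ^ k)
          have := hg0 (α * u ^ k)
          gcongr
      _ = _ := mul_one _
  calc ∫ u in Set.Ioc (δ * N) (N : ℝ), g (α * u ^ k)
      ≤ ∫ u in Set.Ioc (δ * N) (N : ℝ), κ * (|α * (k * u ^ (k - 1))| • g (α * u ^ k)) := by
        refine setIntegral_mono_on ?_ (hint2.const_mul κ) measurableSet_Ioc hpt
        have := (hii (δ * N) N).1
        exact this
    _ = κ * ∫ u in Set.Ioc (δ * N) (N : ℝ), |α * (k * u ^ (k - 1))| • g (α * u ^ k) := by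
        rw [integral_const_mul]
    _ ≤ _ := mul_le_mul_of_nonneg_left hle hκ0.le

open Classical in
/-- **Transfer.** For every `h ≥ 1` there is `c > 0` such that for every sequence `E j` of sets of natural numbers and
almost every `α > 0`, for all large `N` and all `j ≤ N ^ c` the number of `n ≤ N` with `⌊α n ^ h⌋ ∈ E j` is bounded
below and above by the counting function of `E j` at `X = ⌊α N ^ h⌋`. -/
theorem transfer (h : ℝ) (hh : 1 ≤ h) : ∃ c : ℝ, 0 < c ∧ c < 1 ∧ ∀ E : ℕ → Set ℕ, ∀ᵐ α : ℝ, 0 < α →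
    ∀ᶠ N : ℕ in atTop, ∀ j : ℕ, (j : ℝ) ≤ (N : ℝ) ^ c →
      ((N : ℝ) / (h * (α * (N : ℝ) ^ h))) * (((range ⌊α * (N : ℝ) ^ h⌋₊).filter (· ∈ E j)).card : ℝ) -
          (N : ℝ) ^ (1 - c) ≤ (((Icc 1 N).filter (fun n : ℕ => ⌊α * (n : ℝ) ^ h⌋₊ ∈ E j)).card : ℝ) ∧
      ∀ δ : ℝ, 0 < δ → δ ≤ 1 → (((Icc 1 N).filter (fun n : ℕ => ⌊α * (n : ℝ) ^ h⌋₊ ∈ E j)).card : ℝ) ≤
        δ * N + ((N : ℝ) / (h * δ ^ (h - 1) * (α * (N : ℝ) ^ h))) *
          (((range (⌊α * (N : ℝ) ^ h⌋₊ + 1)).filter (· ∈ E j)).card : ℝ) + (N : ℝ) ^ (1 - c) := by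
  obtain ⟨c, hc0, hc1, hus⟩ := us_ae h (by linarith)
  refine ⟨c, hc0, by linarith, fun E => ?_⟩
  have h1 := hus c hc0.le le_rfl (fun j m => if m ∈ E j then 1 else 0) (by
    filter_upwards [eventually_ge_atTop 1] with N hN j _ m _
    have hN1 : (1 : ℝ) ≤ N := by exact_mod_cast hN
    refine le_trans ?_ (Real.one_le_rpow hN1 hc0.le)
    split_ifs <;> simp)
  filter_upwards [h1] with α hα hα0
  filter_upwards [hα hα0, eventually_ge_atTop 1] with N hN hN1 j hj
  have hNr : (1 : ℝ) ≤ N := by exact_mod_cast hN1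
  have hN0 : (0 : ℝ) < N := by linarith
  have hX0 : 0 < α * (N : ℝ) ^ h := by positivity
  set g : ℝ → ℝ := fun x => if ⌊x⌋₊ ∈ E j then 1 else 0 with hg
  have hgm : Measurable g := (measurable_from_nat (f := fun m : ℕ => if m ∈ E j then (1 : ℝ) else 0)).comp Nat.measurable_floor
  have hg0 : ∀ x, 0 ≤ g x := fun x => by simp only [hg]; split_ifs <;> norm_num
  have hg1 : ∀ x, g x ≤ 1 := fun x => by simp only [hg]; split_ifs <;> norm_num
  have hgi : ∀ a b : ℝ, IntervalIntegrable g volume a b := by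
    intro a b
    rw [intervalIntegrable_iff]
    refine Measure.integrableOn_of_bounded (M := 1) (by simp) hgm.aestronglyMeasurable
      (Filter.Eventually.of_forall fun x => ?_)
    rw [Real.norm_eq_abs, abs_of_nonneg (hg0 _)]
    exact hg1 _
  have h2 := hN j hj
  have e1 : ∑ n ∈ Icc 1 N, (if ⌊α * (n : ℝ) ^ h⌋₊ ∈ E j then (1 : ℂ) else 0) =
      ((((Icc 1 N).filter (fun n : ℕ => ⌊α * (n : ℝ) ^ h⌋₊ ∈ E j)).card : ℝ) : ℂ) := by
    rw [Finset.card_filter]
    push_cast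
    refine Finset.sum_congr rfl fun n _ => ?_
    split_ifs <;> simp
  have e2 : ∫ u in (0 : ℝ)..N, (if ⌊α * u ^ h⌋₊ ∈ E j then (1 : ℂ) else 0) =
      ((∫ u in (0 : ℝ)..N, g (α * u ^ h) : ℝ) : ℂ) := by
    rw [← intervalIntegral.integral_ofReal]
    refine intervalIntegral.integral_congr fun u _ => ?_
    simp only [hg]
    split_ifs <;> simp
  rw [e1, e2, ← Complex.ofReal_sub, Complex.norm_real, Real.norm_eq_abs, abs_le] at h2
  have hup : ∫ x in (0 : ℝ)..(α * (N : ℝ) ^ h), g x ≤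
      (((range (⌊α * (N : ℝ) ^ h⌋₊ + 1)).filter (· ∈ E j)).card : ℝ) := by
    rw [← count_int (E j) (⌊α * (N : ℝ) ^ h⌋₊ + 1)]
    refine intervalIntegral.integral_mono_interval le_rfl hX0.le ?_ (Filter.Eventually.of_forall hg0) (hgi _ _)
    push_cast
    exact (Nat.lt_floor_add_one _).le
  have hlo : (((range ⌊α * (N : ℝ) ^ h⌋₊).filter (· ∈ E j)).card : ℝ) ≤ ∫ x in (0 : ℝ)..(α * (N : ℝ) ^ h), g x := by
    rw [← count_int (E j) ⌊α * (N : ℝ) ^ h⌋₊]
    exact intervalIntegral.integral_mono_interval le_rfl (Nat.cast_nonneg _) (Nat.floor_le hX0.le)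
      (Filter.Eventually.of_forall hg0) (hgi _ _)
  refine ⟨?_, fun δ hδ hδ1 => ?_⟩
  · have h3 := int_lower (M := 1) hh hα0 N hN1 g hgm hg0 fun x _ _ => hg1 x
    have h4 : ((N : ℝ) / (h * (α * (N : ℝ) ^ h))) * (((range ⌊α * (N : ℝ) ^ h⌋₊).filter (· ∈ E j)).card : ℝ) ≤
        ((N : ℝ) / (h * (α * (N : ℝ) ^ h))) * ∫ x in (0 : ℝ)..(α * (N : ℝ) ^ h), g x :=
      mul_le_mul_of_nonneg_left hlo (by positivity)
    linarith [h2.1]
  · have h3 := int_upper hh hα0 hδ hδ1 N hN1 g hgm hg0 hg1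
    have h4 : ((N : ℝ) / (h * δ ^ (h - 1) * (α * (N : ℝ) ^ h))) * ∫ x in (0 : ℝ)..(α * (N : ℝ) ^ h), g x ≤
        ((N : ℝ) / (h * δ ^ (h - 1) * (α * (N : ℝ) ^ h))) *
          (((range (⌊α * (N : ℝ) ^ h⌋₊ + 1)).filter (· ∈ E j)).card : ℝ) :=
      mul_le_mul_of_nonneg_left hup (by positivity)
    linarith [h2.2]

end Pool.Agent.D0H51.SS
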