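import Mathlib

/-! # The number of prime tuplets with multipliers `⌊α m ^ h⌋` -/

set_option autoImplicit false

namespace Pool.Agent.D0H51.SS

open Finset

open Classical in
/-- the number of the `m`, `1 ≤ m ≤ M`, with all `⌊α m ^ h⌋ r + 1`, `r ∈ T`, prime -/
noncomputable def NS (h α : ℝ) (M : ℕ) (T : Finset ℕ) : ℕ :=
  ((Icc 1 M).filter (fun m : ℕ => ∀ r ∈ T, (⌊α * (m : ℝ) ^ h⌋₊ * r + 1).Prime)).card

end Pool.Agent.D0H51.SS
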