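import Pool.Agent.D0H51.SS.Bon3
import Pool.Agent.D0H51.SS.Low
import Pool.Agent.D0H51.SS.TupDefs
import Pool.Agent.Results.MP_d018b2_nt.SharpAverage

/-! # Sharp average of the tuplets with multipliers `⌊α m ^ h⌋` -/

set_option autoImplicit false

namespace Pool.Agent.D0H51.SS

open Finset MeasureTheory Filter Topology
open Pool.Agent.Results.MP_d018b2_nt.SharpAverage (S N w)

theorem S_nonneg (T : Finset ℕ) (hT : ∀ r ∈ T, 1 ≤ r) : 0 ≤ S T := by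
  have h1 := (Pool.Agent.Results.MP_d018b2_nt.SharpAverage.result 0).1 T hT
  refine ge_of_tendsto' h1 fun s => Finset.prod_nonneg fun p _ => ?_
  have hp : (1 : ℝ) < ((p : ℕ) : ℝ) := by exact_mod_cast p.2.one_lt
  have h2 : (w T p : ℝ) ≤ ((p : ℕ) : ℝ) := by
    have : w T p ≤ (p : ℕ) := by
      unfold w
      refine (Finset.card_filter_le _ _).trans ?_
      simp
    exact_mod_cast this
  refine div_nonneg ?_ (pow_nonneg ?_ _)
  · rw [sub_nonneg, div_le_one (by linarith)]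
    exact h2
  · rw [sub_nonneg, div_le_one (by linarith)]
    exact hp.le

theorem P_pos (k : ℕ) (lam : ℝ) (hlam : (k : ℝ) < lam) : 0 < ∏ i ∈ range k, (1 - (i + 1 : ℝ) / lam) := by
  refine Finset.prod_pos fun i hi => ?_
  have h1 : ((i + 1 : ℕ) : ℝ) ≤ k := by exact_mod_cast Finset.mem_range.1 hi
  push_cast at h1
  have h2 : 0 < lam := lt_of_le_of_lt (Nat.cast_nonneg k) hlam
  rw [sub_pos, div_lt_one h2]
  linarith

open Classical in
theorem part_one (k : ℕ) (h : ℝ) (hh : 1 ≤ h) : ∃ c : ℝ, 0 < c ∧ ∀ᵐ α : ℝ, 0 < α →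
    ∀ lam θ C : ℝ, (k : ℝ) < lam → 0 ≤ C → θ < ∏ i ∈ range k, (1 - (i + 1 : ℝ) / lam) →
      ∀ᶠ M : ℕ in atTop, ∀ A : Finset ℕ, (∀ r ∈ A, 1 ≤ r ∧ (r : ℝ) ≤ Real.log M ^ C) →
        lam * Real.log (α * (M : ℝ) ^ h) ≤ ∑ r ∈ A, (r : ℝ) / Nat.totient r →
          θ * (M / Real.log (α * (M : ℝ) ^ h) ^ (k + 1)) * ∑ T ∈ A.powersetCard (k + 1), S T -
            (M : ℝ) ^ (1 - c) ≤ ∑ T ∈ A.powersetCard (k + 1), (NS h α M T : ℝ) := by
  have hh0 : 0 < h := by linarith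
  obtain ⟨c₀, hc0, hc1, htr⟩ := Pool.Agent.D0H51.SS.transfer_int h hh0
  refine ⟨c₀ / 2, by positivity, ?_⟩
  filter_upwards [htr fun j => {q : ℕ | ∀ r ∈ Pool.Agent.D0H51.SS.dec (k + 1) j, (q * r + 1).Prime}]
    with α hα hα0 lam θ C hlam hC hθ
  have hlam0 : 0 < lam := lt_of_le_of_lt (Nat.cast_nonneg k) hlam
  have hXt : Tendsto (fun M : ℕ => α * (M : ℝ) ^ h) atTop atTop :=
    ((tendsto_rpow_atTop hh0).comp tendsto_natCast_atTop_atTop).const_mul_atTop hα0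
  have hlXt : Tendsto (fun M : ℕ => Real.log (α * (M : ℝ) ^ h)) atTop atTop := Real.tendsto_log_atTop.comp hXt
  have hSn : ∀ A : Finset ℕ, (∀ r ∈ A, 1 ≤ r) → 0 ≤ ∑ T ∈ A.powersetCard (k + 1), S T := by
    intro A hA
    refine Finset.sum_nonneg fun T hT => S_nonneg T fun r hr => ?_
    exact hA r ((Finset.mem_powersetCard.1 hT).1 hr)
  -- the case `θ ≤ 0`
  rcases le_or_gt θ 0 with hθ0 | hθ0
  · filter_upwards [hlXt.eventually_ge_atTop 1] with M hM A hA _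
    have h1 : 0 ≤ ∑ T ∈ A.powersetCard (k + 1), (NS h α M T : ℝ) :=
      Finset.sum_nonneg fun T _ => Nat.cast_nonneg _
    have h2 := hSn A fun r hr => (hA r hr).1
    have h3 : (0 : ℝ) ≤ M / Real.log (α * (M : ℝ) ^ h) ^ (k + 1) := by
      have : 0 < Real.log (α * (M : ℝ) ^ h) := by linarith
      positivity
    have h4 : θ * (M / Real.log (α * (M : ℝ) ^ h) ^ (k + 1)) * ∑ T ∈ A.powersetCard (k + 1), S T ≤ 0 :=
      mul_nonpos_of_nonpos_of_nonneg (mul_nonpos_of_nonpos_of_nonneg hθ0 h3) h2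
    have h5 : (0 : ℝ) ≤ (M : ℝ) ^ (1 - c₀ / 2) := by positivity
    linarith
  obtain ⟨P, hP⟩ : ∃ P : ℝ, P = ∏ i ∈ range k, (1 - (i + 1 : ℝ) / lam) := ⟨_, rfl⟩
  obtain ⟨θ', hθ'⟩ : ∃ θ' : ℝ, θ' = (θ + P) / 2 := ⟨_, rfl⟩
  rw [← hP] at hθ
  have hθ1 : θ < θ' := by rw [hθ']; linarith
  have hθ2 : θ' < P := by rw [hθ']; linarith
  have hθ'0 : 0 < θ' := hθ0.trans hθ1
  obtain ⟨δ, hδ⟩ : ∃ δ : ℝ, δ = min (1 / 4) ((θ' - θ) / (6 * θ')) := ⟨_, rfl⟩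
  have hδ0 : 0 < δ := by
    rw [hδ]
    exact lt_min (by norm_num) (div_pos (by linarith) (by positivity))
  have hδ1 : δ ≤ 1 / 4 := by rw [hδ]; exact min_le_left _ _
  have hδ2 : θ ≤ θ' * (1 - 6 * δ) := by
    have h1 : δ ≤ (θ' - θ) / (6 * θ') := by rw [hδ]; exact min_le_right _ _
    rw [le_div_iff₀ (by positivity)] at h1
    nlinarith
  obtain ⟨x₀, hx₀⟩ := (Pool.Agent.Results.MP_d018b2_nt.SharpAverage.result k).2.1.choose_spec.2 lam θ' (C + 1)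
    hlam (by linarith) (by rw [← hP]; exact hθ2)
  have hdt : Tendsto (fun M : ℕ => α * (δ * M) ^ h) atTop atTop :=
    ((tendsto_rpow_atTop hh0).comp (tendsto_natCast_atTop_atTop.const_mul_atTop hδ0)).const_mul_atTop hα0
  filter_upwards [hα hα0, Pool.Agent.D0H51.SS.sharp_of_windows hh hα0 δ hδ0 hδ1,
    Pool.Agent.D0H51.SS.ev_win C hC hh hα0 hδ0, Pool.Agent.D0H51.SS.ev_code C hC (4 ^ (k + 1)) (c₀ / 2) (by positivity),
    hlXt.eventually_ge_atTop 1, hdt.eventually_ge_atTop (x₀ : ℝ), eventually_ge_atTop 1]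
    with M hM1 hM2 hM3 hM4 hM5 hM6 hM7 A hA hAs
  have hMr : (1 : ℝ) ≤ M := by exact_mod_cast hM7
  have hM0 : (0 : ℝ) < M := by linarith
  obtain ⟨Λ, hΛ⟩ : ∃ Λ : ℝ, Λ = Real.log (α * (M : ℝ) ^ h) := ⟨_, rfl⟩
  rw [← hΛ] at hAs hM5 ⊢
  have hΛ0 : 0 < Λ := by linarith
  have hS0 := hSn A fun r hr => (hA r hr).1
  obtain ⟨W, hW⟩ : ∃ W : ℝ, W = ∑ T ∈ A.powersetCard (k + 1), S T := ⟨_, rfl⟩
  rw [← hW] at hS0 ⊢
  -- codes
  obtain ⟨R, hR⟩ : ∃ R : ℕ, R = ⌊Real.log M ^ C⌋₊ := ⟨_, rfl⟩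
  have hlogM : 0 ≤ Real.log M := Real.log_nonneg hMr
  have hlogC : 0 ≤ Real.log M ^ C := Real.rpow_nonneg hlogM C
  have hAR : ∀ r ∈ A, r ≤ R := fun r hr => by
    rw [hR]
    exact Nat.le_floor (hA r hr).2
  have hRB : (((R + 2) ^ (4 ^ (k + 1)) : ℕ) : ℝ) ≤ (M : ℝ) ^ (c₀ / 2) := by
    refine le_trans ?_ hM4
    push_cast
    refine pow_le_pow_left₀ (by positivity) ?_ _
    have := Nat.floor_le hlogC
    rw [← hR] at this
    linarith
  have hcode : ∀ T ∈ A.powersetCard (k + 1), (∫ u in (0 : ℝ)..M, (if ∀ r ∈ T, (⌊α * u ^ h⌋₊ * r + 1).Prime then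
      (1 : ℝ) else 0)) - (M : ℝ) ^ (1 - c₀) ≤ (NS h α M T : ℝ) := by
    intro T hT
    rw [Finset.mem_powersetCard] at hT
    obtain ⟨j, hj1, hj2⟩ := Pool.Agent.D0H51.SS.exists_code R (k + 1) T hT.2 fun r hr => hAR r (hT.1 hr)
    have hjb : (j : ℝ) ≤ (M : ℝ) ^ c₀ := by
      refine (Nat.cast_le.2 hj2).trans (hRB.trans ?_)
      exact Real.rpow_le_rpow_of_exponent_le hMr (by linarith)
    have h1 := hM1 j hjb
    rw [hj1] at h1
    unfold NS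
    convert h1
  have hcard : ((A.powersetCard (k + 1)).card : ℝ) ≤ (M : ℝ) ^ (c₀ / 2) := by
    refine le_trans ?_ hRB
    rw [Finset.card_powersetCard]
    refine Nat.cast_le.2 ?_
    have hAc : A.card ≤ R := by
      have h1 : A ⊆ Icc 1 R := fun r hr => Finset.mem_Icc.2 ⟨(hA r hr).1, hAR r hr⟩
      have := Finset.card_le_card h1
      rw [Nat.card_Icc] at this
      omega
    calc A.card.choose (k + 1) ≤ A.card ^ (k + 1) := Nat.choose_le_pow _ _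
      _ ≤ (R + 2) ^ (k + 1) := Nat.pow_le_pow_left (by omega) _
      _ ≤ (R + 2) ^ (4 ^ (k + 1)) := Nat.pow_le_pow_right (by omega) (Nat.lt_pow_self (by norm_num)).le
  -- the arithmetic function
  obtain ⟨f, hf⟩ : ∃ f : ℕ → ℝ, f = fun q => ∑ T ∈ A.powersetCard (k + 1),
    (if ∀ r ∈ T, (q * r + 1).Prime then (1 : ℝ) else 0) := ⟨_, rfl⟩
  have hf0 : ∀ q, 0 ≤ f q := fun q => by
    rw [hf]
    refine Finset.sum_nonneg fun T _ => ?_
    split_ifs <;> norm_num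
  have hfB : ∀ q, f q ≤ ((A.powersetCard (k + 1)).card : ℝ) := fun q => by
    rw [hf]
    simp only
    refine (Finset.sum_le_sum (g := fun _ => (1 : ℝ)) fun T _ => ?_).trans ?_
    · split_ifs <;> norm_num
    · simp
  have hwin : ∀ t : ℕ, α * (δ * M) ^ h ≤ t → 2 * t ≤ α * (M : ℝ) ^ h →
      θ' * W / Λ ^ (k + 1) * t ≤ ∑ q ∈ Ico t (2 * t), f q := by
    intro t ht1 ht2
    obtain ⟨ht3, ht4⟩ := hM3 t ht1
    have htx : x₀ ≤ t := by exact_mod_cast hM6.trans ht1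
    have ht0 : (0 : ℝ) < t := lt_of_lt_of_le (by positivity) ht1
    have hlt : Real.log t ≤ Λ := by
      rw [hΛ]
      exact Real.log_le_log ht0 (by linarith)
    have h1 := (hx₀ t htx A (fun r hr => ⟨(hA r hr).1, (hA r hr).2.trans ht4⟩)).1
      (le_trans (mul_le_mul_of_nonneg_left hlt hlam0.le) hAs)
    rw [← hW] at h1
    have h2 : ∑ q ∈ Ico t (2 * t), f q = ∑ T ∈ A.powersetCard (k + 1), (N t T : ℝ) := by
      rw [hf]
      simp only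
      rw [Finset.sum_comm]
      refine Finset.sum_congr rfl fun T _ => ?_
      unfold N
      rw [Finset.card_filter]
      push_cast
      refine Finset.sum_congr rfl fun q _ => ?_
      congr
    rw [h2]
    refine le_trans ?_ h1
    calc θ' * W / Λ ^ (k + 1) * t = θ' * (t / Λ ^ (k + 1)) * W := by ring
      _ ≤ θ' * (t / Real.log t ^ (k + 1)) * W := by gcongr
  have hmain := hM2 f _ (θ' * W / Λ ^ (k + 1)) hf0 hfB (by positivity) hwin
  have hint : ∫ u in (0 : ℝ)..M, f ⌊α * u ^ h⌋₊ = ∑ T ∈ A.powersetCard (k + 1),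
      ∫ u in (0 : ℝ)..M, (if ∀ r ∈ T, (⌊α * u ^ h⌋₊ * r + 1).Prime then (1 : ℝ) else 0) := by
    rw [hf]
    simp only
    rw [intervalIntegral.integral_finsetSum]
    intro T _
    rw [intervalIntegrable_iff]
    refine Measure.integrableOn_of_bounded (M := 1) (by simp) ?_ (Filter.Eventually.of_forall fun u => ?_)
    · have h1 : Measurable fun x : ℝ => (if ∀ r ∈ T, (⌊x⌋₊ * r + 1).Prime then (1 : ℝ) else 0) :=
        Pool.Agent.D0H51.SS.floor_meas fun q => if ∀ r ∈ T, (q * r + 1).Prime then (1 : ℝ) else 0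
      exact (h1.comp (show Measurable fun u : ℝ => α * u ^ h by fun_prop)).aestronglyMeasurable
    · split_ifs <;> simp
  rw [hint] at hmain
  have hsum := Finset.sum_le_sum hcode
  rw [Finset.sum_sub_distrib, Finset.sum_const, nsmul_eq_mul] at hsum
  have herr : ((A.powersetCard (k + 1)).card : ℝ) * (M : ℝ) ^ (1 - c₀) ≤ (M : ℝ) ^ (1 - c₀ / 2) := by
    calc ((A.powersetCard (k + 1)).card : ℝ) * (M : ℝ) ^ (1 - c₀) ≤ (M : ℝ) ^ (c₀ / 2) * (M : ℝ) ^ (1 - c₀) :=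
          mul_le_mul_of_nonneg_right hcard (by positivity)
      _ = _ := by
          rw [← Real.rpow_add hM0]
          ring_nf
  have hfin : θ * (M / Λ ^ (k + 1)) * W ≤ θ' * W / Λ ^ (k + 1) * M * (1 - 6 * δ) := by
    calc θ * (M / Λ ^ (k + 1)) * W ≤ (θ' * (1 - 6 * δ)) * (M / Λ ^ (k + 1)) * W := by gcongr
      _ = _ := by ring
  linarith

open Classical in
theorem sparse_sharp (k : ℕ) (h : ℝ) (hh : 1 ≤ h) : ∃ c : ℝ, 0 < c ∧ ∀ᵐ α : ℝ, 0 < α →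
    ∀ lam θ C : ℝ, (k : ℝ) < lam → 0 ≤ C → θ < ∏ i ∈ range k, (1 - (i + 1 : ℝ) / lam) →
      ∀ᶠ M : ℕ in atTop, ∀ A : Finset ℕ, (∀ r ∈ A, 1 ≤ r ∧ (r : ℝ) ≤ Real.log M ^ C) →
        (lam * Real.log (α * (M : ℝ) ^ h) ≤ ∑ r ∈ A, (r : ℝ) / Nat.totient r →
          θ * (M / Real.log (α * (M : ℝ) ^ h) ^ (k + 1)) * ∑ T ∈ A.powersetCard (k + 1), S T -
            (M : ℝ) ^ (1 - c) ≤ ∑ T ∈ A.powersetCard (k + 1), (NS h α M T : ℝ)) ∧
        (lam * Real.log (α * (M : ℝ) ^ h) ≤ A.card →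
          θ * (M / Real.log (α * (M : ℝ) ^ h) ^ (k + 1)) * ∑ T ∈ A.powersetCard (k + 1), S T ≤
            ∑ T ∈ A.powersetCard (k + 1), (NS h α M T : ℝ)) := by
  have hh0 : 0 < h := by linarith
  obtain ⟨c, hc0, hp1⟩ := part_one k h hh
  refine ⟨c, hc0, ?_⟩
  filter_upwards [hp1] with α hα hα0 lam θ C hlam hC hθ
  have hlam0 : 0 < lam := lt_of_le_of_lt (Nat.cast_nonneg k) hlam
  have hXt : Tendsto (fun M : ℕ => α * (M : ℝ) ^ h) atTop atTop :=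
    ((tendsto_rpow_atTop hh0).comp tendsto_natCast_atTop_atTop).const_mul_atTop hα0
  have hlXt : Tendsto (fun M : ℕ => Real.log (α * (M : ℝ) ^ h)) atTop atTop := Real.tendsto_log_atTop.comp hXt
  obtain ⟨θ', hθ1, hθ2⟩ := exists_between hθ
  have hκ0 := (Pool.Agent.Results.MP_d018b2_nt.SharpAverage.result k).2.1.choose_spec.1
  have hκS := (Pool.Agent.Results.MP_d018b2_nt.SharpAverage.result k).2.1.choose_spec.2
  obtain ⟨κ, hκ⟩ : ∃ κ : ℝ, κ = (Pool.Agent.Results.MP_d018b2_nt.SharpAverage.result k).2.1.choose := ⟨_, rfl⟩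
  rw [← hκ] at hκ0
  obtain ⟨x₀, hx₀⟩ := hκS lam θ (C + 1) hlam (by linarith) hθ
  have hfl : Tendsto (fun M : ℕ => ⌊α * (M : ℝ) ^ h⌋₊) atTop atTop := tendsto_nat_floor_atTop.comp hXt
  have hsm := Pool.Agent.D0H51.SS.small_pow hc0 (show 0 < (θ' - θ) * (κ * lam ^ (k + 1)) by
    have : 0 < θ' - θ := by linarith
    positivity)
  filter_upwards [hα hα0 lam θ C hlam hC hθ, hα hα0 lam θ' C hlam hC hθ2, hsm, hlXt.eventually_ge_atTop 1,
    hfl.eventually_ge_atTop x₀, Pool.Agent.D0H51.SS.ev_win C hC hh hα0 (show (0 : ℝ) < 1 / 4 by norm_num),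
    hXt.eventually_ge_atTop 4, eventually_ge_atTop 1]
    with M h1 h2 h3 h4 h5 h6 h7 hM1 A hA
  refine ⟨h1 A hA, fun hAc => ?_⟩
  have hM0 : (0 : ℝ) < M := by exact_mod_cast hM1
  have htot : (A.card : ℝ) ≤ ∑ r ∈ A, (r : ℝ) / Nat.totient r := by
    rw [Finset.card_eq_sum_ones]
    push_cast
    refine Finset.sum_le_sum fun r hr => ?_
    have hr1 := (hA r hr).1
    have hφ0 : 0 < Nat.totient r := Nat.totient_pos.2 hr1
    rw [le_div_iff₀ (by exact_mod_cast hφ0), one_mul]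
    exact_mod_cast Nat.totient_le r
  have h8 := h2 A hA (hAc.trans htot)
  obtain ⟨Λ, hΛ⟩ : ∃ Λ : ℝ, Λ = Real.log (α * (M : ℝ) ^ h) := ⟨_, rfl⟩
  rw [← hΛ] at hAc h4 h8 ⊢
  have hΛ0 : 0 < Λ := by linarith
  have hXf : (3 : ℝ) ≤ (⌊α * (M : ℝ) ^ h⌋₊ : ℝ) := by
    have := Nat.lt_floor_add_one (α * (M : ℝ) ^ h)
    linarith
  have hwt : α * (1 / 4 * M) ^ h ≤ (⌊α * (M : ℝ) ^ h⌋₊ : ℝ) := by
    have h9 : α * (1 / 4 * M) ^ h ≤ 1 / 4 * (α * (M : ℝ) ^ h) := by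
      rw [Real.mul_rpow (by norm_num) hM0.le]
      have h10 : (1 / 4 : ℝ) ^ h ≤ (1 / 4 : ℝ) ^ (1 : ℝ) :=
        Real.rpow_le_rpow_of_exponent_ge (by norm_num) (by norm_num) hh
      rw [Real.rpow_one] at h10
      have h11 : 0 ≤ α * (M : ℝ) ^ h := by positivity
      nlinarith
    have := Nat.lt_floor_add_one (α * (M : ℝ) ^ h)
    linarith
  obtain ⟨h10, h11⟩ := h6 _ hwt
  have hlt : Real.log (⌊α * (M : ℝ) ^ h⌋₊ : ℝ) ≤ Λ := by
    rw [hΛ]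
    exact Real.log_le_log (by linarith) (Nat.floor_le (by linarith))
  have h9 := (hx₀ ⌊α * (M : ℝ) ^ h⌋₊ h5 A (fun r hr => ⟨(hA r hr).1, (hA r hr).2.trans h11⟩)).2
    (le_trans (mul_le_mul_of_nonneg_left hlt hlam0.le) hAc)
  rw [← hκ] at h9
  obtain ⟨W, hW⟩ : ∃ W : ℝ, W = ∑ T ∈ A.powersetCard (k + 1), S T := ⟨_, rfl⟩
  rw [← hW] at h8 h9 ⊢
  have h12 : κ * (lam * Λ) ^ (k + 1) ≤ W := by
    refine le_trans ?_ h9
    gcongr
  have h13 : (θ' - θ) * (κ * lam ^ (k + 1)) * M ≤ (θ' - θ) * (M / Λ ^ (k + 1)) * W := by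
    calc (θ' - θ) * (κ * lam ^ (k + 1)) * M = (θ' - θ) * (M / Λ ^ (k + 1)) * (κ * (lam * Λ) ^ (k + 1)) := by
          rw [mul_pow]
          field_simp
      _ ≤ _ := by
          have : 0 < θ' - θ := by linarith
          gcongr
  have h14 : θ' * (M / Λ ^ (k + 1)) * W = θ * (M / Λ ^ (k + 1)) * W + (θ' - θ) * (M / Λ ^ (k + 1)) * W := by ring
  linarith

end Pool.Agent.D0H51.SS
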