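import Pool.Agent.D0H51.SS.TupA
import Pool.Agent.Results.MP_d018b2_nt.QuarterAtEveryScale

/-! # Lower bounds of the right order for a positive proportion of the tuplets with multipliers `⌊α m ^ h⌋` -/

set_option autoImplicit false

namespace Pool.Agent.D0H51.SS

open Finset MeasureTheory Filter Topology
open Pool.Agent.Results.MP_d018b2_nt.SharpAverage (S N w)

theorem w_eq (T : Finset ℕ) (p : ℕ) : Pool.Agent.Results.MP_d018b2_nt.QuarterAtEveryScale.w T p = w T p := rfl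

theorem S_eq (T : Finset ℕ) : Pool.Agent.Results.MP_d018b2_nt.QuarterAtEveryScale.S T = S T := rfl

theorem N_eq (x : ℕ) (T : Finset ℕ) : Pool.Agent.Results.MP_d018b2_nt.QuarterAtEveryScale.N x T = N x T := rfl

open Classical in
theorem sparse_quarter (k : ℕ) (hk : 1 ≤ k) (h : ℝ) (hh : 1 ≤ h) : ∃ κ : ℝ → ℝ → ℝ,
    (∀ ε lam, 0 < ε → 0 < lam → 0 < κ ε lam) ∧ ∀ᵐ α : ℝ, 0 < α →
      ∀ ε lam C : ℝ, 0 < ε → 0 < lam → 0 ≤ C → ∀ᶠ M : ℕ in atTop,
        ∀ A : Finset ℕ, (∀ r ∈ A, 1 ≤ r ∧ (r : ℝ) ≤ Real.log M ^ C) →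
          lam * Real.log (α * (M : ℝ) ^ h) ≤ A.card →
            ((1 / 4 : ℝ) ^ k - ε) * ∑ T ∈ A.powersetCard (k + 1), S T ≤
              ∑ T ∈ (A.powersetCard (k + 1)).filter (fun T =>
                κ ε lam * S T * (M / Real.log (α * (M : ℝ) ^ h) ^ (k + 1)) ≤ NS h α M T), S T := by
  have hh0 : 0 < h := by linarith
  have hQ : ∀ ε lam : ℝ, ∃ κ₀ : ℝ, 0 < κ₀ ∧ (0 < ε → 0 < lam → ∀ C : ℝ,
      ∃ x₀ : ℕ, ∀ x : ℕ, x₀ ≤ x → ∀ A : Finset ℕ, (∀ r ∈ A, 1 ≤ r ∧ (r : ℝ) ≤ Real.log x ^ C) →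
        (lam * Real.log x ≤ ∑ r ∈ A, (r : ℝ) / Nat.totient r →
          ((1 / 4 : ℝ) ^ k - ε / 2) * ∑ T ∈ A.powersetCard (k + 1), S T ≤
            ∑ T ∈ (A.powersetCard (k + 1)).filter
              (fun T => κ₀ * S T * (x / Real.log x ^ (k + 1)) ≤ N x T), S T) ∧
        (lam * Real.log x ≤ A.card → κ₀ * (A.card : ℝ) ^ (k + 1) ≤ ∑ T ∈ A.powersetCard (k + 1), S T)) := by
    intro ε lam
    by_cases hcon : 0 < ε ∧ 0 < lam
    · obtain ⟨κ, h1, h2⟩ := Pool.Agent.Results.MP_d018b2_nt.QuarterAtEveryScale.result.2 k hk (ε / 2)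
        (by linarith [hcon.1]) lam hcon.2
      refine ⟨κ, h1, fun _ _ C => ?_⟩
      obtain ⟨x₀, hx₀⟩ := h2 C
      refine ⟨x₀, fun x hx A hA => ?_⟩
      have h3 := hx₀ x hx A hA
      simp only [S_eq, N_eq] at h3
      exact h3
    · refine ⟨1, one_pos, fun h1 h2 => absurd ⟨h1, h2⟩ hcon⟩
  choose κ₀ hκ₀ hQ2 using hQ
  obtain ⟨c, hc0, hc1, htr⟩ := Pool.Agent.D0H51.SS.transfer h hh
  refine ⟨fun ε lam => κ₀ ε lam / (6 * h), fun ε lam _ _ => div_pos (hκ₀ ε lam) (by positivity), ?_⟩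
  filter_upwards [htr fun j => {q : ℕ | ∀ r ∈ Pool.Agent.D0H51.SS.dec (k + 1) j, (q * r + 1).Prime}]
    with α hα hα0 ε lam C hε hlam hC
  have hXt : Tendsto (fun M : ℕ => α * (M : ℝ) ^ h) atTop atTop :=
    ((tendsto_rpow_atTop hh0).comp tendsto_natCast_atTop_atTop).const_mul_atTop hα0
  have hlXt : Tendsto (fun M : ℕ => Real.log (α * (M : ℝ) ^ h)) atTop atTop := Real.tendsto_log_atTop.comp hXt
  have hfl : Tendsto (fun M : ℕ => ⌊α * (M : ℝ) ^ h⌋₊) atTop atTop := tendsto_nat_floor_atTop.comp hXt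
  obtain ⟨κ, hκ⟩ : ∃ κ : ℝ, κ = κ₀ ε lam := ⟨_, rfl⟩
  have hκ0 : 0 < κ := by rw [hκ]; exact hκ₀ ε lam
  obtain ⟨η, hη⟩ : ∃ η : ℝ, η = κ * ε / 2 := ⟨_, rfl⟩
  have hη0 : 0 < η := by rw [hη]; positivity
  obtain ⟨x₀, hx₀⟩ := hQ2 ε lam hε hlam (C + 1)
  rw [← hκ] at hx₀
  filter_upwards [hα hα0, Pool.Agent.D0H51.SS.ev_win C hC hh hα0 (show (0 : ℝ) < 1 / 4 by norm_num),
    Pool.Agent.D0H51.SS.ev_code C hC (4 ^ (k + 1)) c hc0, hlXt.eventually_ge_atTop 1,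
    hfl.eventually_ge_atTop (2 * x₀ + 2), hXt.eventually_ge_atTop 12, eventually_ge_atTop 1,
    Pool.Agent.W301.SS.ev_log (k + 1) (6 * h * (2 * h) ^ (k + 1) / (κ * η)) c hc0,
    (Real.tendsto_log_atTop.comp tendsto_natCast_atTop_atTop).eventually_ge_atTop (|Real.log α| + 1)]
    with M hM1 hM2 hM3 hM4 hM5 hM6 hM7 hM8 hM9 A hA hAc
  simp only [Function.comp] at hM9
  have hMr : (1 : ℝ) ≤ M := by exact_mod_cast hM7
  have hM0 : (0 : ℝ) < M := by linarith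
  obtain ⟨X, hX⟩ : ∃ X : ℝ, X = α * (M : ℝ) ^ h := ⟨_, rfl⟩
  have hlX : Real.log X = Real.log α + h * Real.log M := by
    rw [hX, Real.log_mul hα0.ne' (by positivity), Real.log_rpow hM0]
  rw [← hX] at hM4 hM5 hM6 hAc ⊢
  obtain ⟨Λ, hΛ⟩ : ∃ Λ : ℝ, Λ = Real.log X := ⟨_, rfl⟩
  rw [← hΛ] at hlX hM4 hAc ⊢
  have hΛ0 : 0 < Λ := by linarith
  have hX0 : 0 < X := by linarith
  have hlogM : 0 < Real.log M := by linarith [abs_nonneg (Real.log α)]
  have hΛM : Λ ≤ 2 * h * Real.log M := by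
    have h8 := le_abs_self (Real.log α)
    rw [hlX]
    nlinarith
  -- the window
  obtain ⟨x, hx⟩ : ∃ x : ℕ, x = ⌊X⌋₊ / 2 := ⟨_, rfl⟩
  have hx1 : x₀ ≤ x := by omega
  have hx2 : 2 * x ≤ ⌊X⌋₊ := by omega
  have hx3 : (⌊X⌋₊ : ℝ) ≤ 2 * x + 1 := by exact_mod_cast (by omega : ⌊X⌋₊ ≤ 2 * x + 1)
  have hXl : X < ⌊X⌋₊ + 1 := Nat.lt_floor_add_one X
  have hXu : (⌊X⌋₊ : ℝ) ≤ X := Nat.floor_le hX0.le
  have hx4 : X / 3 ≤ x := by linarith
  have hx5 : (x : ℝ) ≤ X := by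
    have : (2 : ℝ) * x ≤ ⌊X⌋₊ := by exact_mod_cast hx2
    linarith
  have hx0 : (0 : ℝ) < x := by linarith
  have hxw : α * (1 / 4 * M) ^ h ≤ (x : ℝ) := by
    have h9 : α * (1 / 4 * M) ^ h ≤ 1 / 4 * (α * (M : ℝ) ^ h) := by
      rw [Real.mul_rpow (by norm_num) hM0.le]
      have h10 : (1 / 4 : ℝ) ^ h ≤ (1 / 4 : ℝ) ^ (1 : ℝ) :=
        Real.rpow_le_rpow_of_exponent_ge (by norm_num) (by norm_num) hh
      rw [Real.rpow_one] at h10
      have h11 : 0 ≤ α * (M : ℝ) ^ h := by positivity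
      nlinarith
    rw [← hX] at h9
    linarith
  obtain ⟨hlx0, hlxC⟩ := hM2 x hxw
  have hlxΛ : Real.log x ≤ Λ := by
    rw [hΛ]
    exact Real.log_le_log hx0 hx5
  have htot : (A.card : ℝ) ≤ ∑ r ∈ A, (r : ℝ) / Nat.totient r := by
    rw [Finset.card_eq_sum_ones]
    push_cast
    refine Finset.sum_le_sum fun r hr => ?_
    have hr1 := (hA r hr).1
    have hφ0 : 0 < Nat.totient r := Nat.totient_pos.2 hr1
    rw [le_div_iff₀ (by exact_mod_cast hφ0), one_mul]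
    exact_mod_cast Nat.totient_le r
  have hlx : lam * Real.log x ≤ A.card := (mul_le_mul_of_nonneg_left hlxΛ hlam.le).trans hAc
  obtain ⟨hq1, hq2⟩ := hx₀ x hx1 A (fun r hr => ⟨(hA r hr).1, (hA r hr).2.trans hlxC⟩)
  have hq1 := hq1 (hlx.trans htot)
  have hq2 := hq2 hlx
  have hST : ∀ T ∈ A.powersetCard (k + 1), 0 ≤ S T := fun T hT =>
    S_nonneg T fun r hr => (hA r ((Finset.mem_powersetCard.1 hT).1 hr)).1
  obtain ⟨W, hW⟩ : ∃ W : ℝ, W = ∑ T ∈ A.powersetCard (k + 1), S T := ⟨_, rfl⟩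
  rw [← hW] at hq1 hq2 ⊢
  -- codes
  obtain ⟨R, hR⟩ : ∃ R : ℕ, R = ⌊Real.log M ^ C⌋₊ := ⟨_, rfl⟩
  have hlogC : 0 ≤ Real.log M ^ C := Real.rpow_nonneg hlogM.le C
  have hAR : ∀ r ∈ A, r ≤ R := fun r hr => by
    rw [hR]
    exact Nat.le_floor (hA r hr).2
  have hRB : (((R + 2) ^ (4 ^ (k + 1)) : ℕ) : ℝ) ≤ (M : ℝ) ^ c := by
    refine le_trans ?_ hM3
    push_cast
    refine pow_le_pow_left₀ (by positivity) ?_ _
    have := Nat.floor_le hlogC
    rw [← hR] at this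
    linarith
  -- the error term
  have herr : (M : ℝ) ^ (1 - c) ≤ κ / (6 * h) * η * (M / Λ ^ (k + 1)) := by
    have e : (M : ℝ) ^ (1 - c) = M / (M : ℝ) ^ c := by
      rw [Real.rpow_sub hM0, Real.rpow_one]
    rw [e, div_le_iff₀ (by positivity)]
    calc (M : ℝ) = κ / (6 * h) * η * (M / (2 * h * Real.log M) ^ (k + 1)) *
          (6 * h * (2 * h) ^ (k + 1) / (κ * η) * Real.log M ^ (k + 1)) := by
          rw [mul_pow (2 * h)]
          field_simp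
      _ ≤ κ / (6 * h) * η * (M / Λ ^ (k + 1)) * (M : ℝ) ^ c := by gcongr
  have hgood : ∀ T ∈ A.powersetCard (k + 1), η ≤ S T → κ * S T * (x / Real.log x ^ (k + 1)) ≤ N x T →
      κ / (6 * h) * S T * (M / Λ ^ (k + 1)) ≤ NS h α M T := by
    intro T hT hST2 hN
    rw [Finset.mem_powersetCard] at hT
    obtain ⟨j, hj1, hj2⟩ := Pool.Agent.D0H51.SS.exists_code R (k + 1) T hT.2 fun r hr => hAR r (hT.1 hr)
    have hjb : (j : ℝ) ≤ (M : ℝ) ^ c := (Nat.cast_le.2 hj2).trans hRB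
    have h0 := (hM1 j hjb).1
    rw [hj1, ← hX] at h0
    have h1 : (M : ℝ) / (h * X) * (((range ⌊X⌋₊).filter (fun q => ∀ r ∈ T, (q * r + 1).Prime)).card : ℝ) -
        (M : ℝ) ^ (1 - c) ≤ (NS h α M T : ℝ) := by
      unfold NS
      convert h0
    have h2 : N x T ≤ ((range ⌊X⌋₊).filter (fun q => ∀ r ∈ T, (q * r + 1).Prime)).card := by
      unfold N
      refine Finset.card_le_card fun q hq => ?_
      rw [Finset.mem_filter, Finset.mem_Ico] at hq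
      rw [Finset.mem_filter, Finset.mem_range]
      exact ⟨by omega, hq.2⟩
    refine le_trans ?_ h1
    have h4 : (N x T : ℝ) ≤ (((range ⌊X⌋₊).filter (fun q => ∀ r ∈ T, (q * r + 1).Prime)).card : ℝ) := by
      exact_mod_cast h2
    have h5 : κ / (3 * h) * S T * (M / Λ ^ (k + 1)) ≤ (M : ℝ) / (h * X) *
        (((range ⌊X⌋₊).filter (fun q => ∀ r ∈ T, (q * r + 1).Prime)).card : ℝ) := by
      calc κ / (3 * h) * S T * (M / Λ ^ (k + 1)) = (M : ℝ) / (h * X) * (κ * S T * ((X / 3) / Λ ^ (k + 1))) := by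
            field_simp
        _ ≤ (M : ℝ) / (h * X) * (κ * S T * (x / Real.log x ^ (k + 1))) := by
            have := hη0.le.trans hST2
            gcongr
        _ ≤ _ := by
            have := hN.trans h4
            gcongr
    have h6 : κ / (6 * h) * η * (M / Λ ^ (k + 1)) ≤ κ / (6 * h) * S T * (M / Λ ^ (k + 1)) := by gcongr
    have h7 : κ / (3 * h) * S T * (M / Λ ^ (k + 1)) = κ / (6 * h) * S T * (M / Λ ^ (k + 1)) +
        κ / (6 * h) * S T * (M / Λ ^ (k + 1)) := by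
      ring
    linarith
  -- sums
  have hsplit : ∑ T ∈ (A.powersetCard (k + 1)).filter (fun T => κ * S T * (x / Real.log x ^ (k + 1)) ≤ N x T), S T ≤
      ∑ T ∈ (A.powersetCard (k + 1)).filter (fun T => κ / (6 * h) * S T * (M / Λ ^ (k + 1)) ≤ NS h α M T), S T +
        η * (A.card : ℝ) ^ (k + 1) := by
    rw [← Finset.sum_filter_add_sum_filter_not ((A.powersetCard (k + 1)).filter (fun T =>
      κ * S T * (x / Real.log x ^ (k + 1)) ≤ N x T)) (fun T => η ≤ S T)]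
    refine add_le_add ?_ ?_
    · refine Finset.sum_le_sum_of_subset_of_nonneg ?_ ?_
      · intro T hT
        rw [Finset.mem_filter, Finset.mem_filter] at hT
        rw [Finset.mem_filter]
        exact ⟨hT.1.1, hgood T hT.1.1 hT.2 hT.1.2⟩
      · intro T hT _
        exact hST T (Finset.mem_filter.1 hT).1
    · refine (Finset.sum_le_card_nsmul _ _ η fun T hT => ?_).trans ?_
      · rw [Finset.mem_filter, Finset.mem_filter] at hT
        exact (not_le.1 hT.2).le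
      · rw [nsmul_eq_mul, mul_comm]
        refine mul_le_mul_of_nonneg_left ?_ hη0.le
        have h1 : (((A.powersetCard (k + 1)).filter (fun T =>
            κ * S T * (x / Real.log x ^ (k + 1)) ≤ N x T)).filter (fun T => ¬ η ≤ S T)).card ≤ A.card ^ (k + 1) := by
          refine (Finset.card_le_card ((Finset.filter_subset _ _).trans (Finset.filter_subset _ _))).trans ?_
          rw [Finset.card_powersetCard]
          exact Nat.choose_le_pow _ _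
        exact_mod_cast h1
  have hW2 : η * (A.card : ℝ) ^ (k + 1) ≤ ε / 2 * W := by
    calc η * (A.card : ℝ) ^ (k + 1) = ε / 2 * (κ * (A.card : ℝ) ^ (k + 1)) := by rw [hη]; ring
      _ ≤ _ := by gcongr
  have hfin : ((1 / 4 : ℝ) ^ k - ε) * W ≤ ∑ T ∈ (A.powersetCard (k + 1)).filter (fun T =>
      κ / (6 * h) * S T * (M / Λ ^ (k + 1)) ≤ NS h α M T), S T := by linarith
  subst hκ
  exact hfin

end Pool.Agent.D0H51.SS
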